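import Mathlib

/-! Smoothness of the pull-back of a constant bilinear form, as a section of the bundle of
bilinear forms on the tangent bundle. -/

open scoped Manifold ContDiff Topology Bundle
open Set Bundle

namespace Run7.h611

variable {E : Type*} [NormedAddCommGroup E] [NormedSpace ℝ E]
  {M : Type*} [TopologicalSpace M] [ChartedSpace E M]
  {V : Type*} [NormedAddCommGroup V] [NormedSpace ℝ V]

/-- The pull-back of a constant bilinear form on `V` under a map `f : M → V`. -/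
noncomputable def pullForm (B : V →L[ℝ] V →L[ℝ] ℝ) (f : M → V) (b : M) :
    TangentSpace 𝓘(ℝ, E) b →L[ℝ] TangentSpace 𝓘(ℝ, E) b →L[ℝ] ℝ :=
  (B.bilinearComp (mfderiv 𝓘(ℝ, E) 𝓘(ℝ, V) f b : E →L[ℝ] V)
    (mfderiv 𝓘(ℝ, E) 𝓘(ℝ, V) f b : E →L[ℝ] V) : E →L[ℝ] E →L[ℝ] ℝ)

theorem pullForm_apply (B : V →L[ℝ] V →L[ℝ] ℝ) (f : M → V) (b : M)
    (v w : TangentSpace 𝓘(ℝ, E) b) :
    pullForm (E := E) B f b v w = B (mfderiv 𝓘(ℝ, E) 𝓘(ℝ, V) f b v)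
      (mfderiv 𝓘(ℝ, E) 𝓘(ℝ, V) f b w) := rfl

theorem contMDiffAt_pullForm [IsManifold 𝓘(ℝ, E) ∞ M]
    (B : V →L[ℝ] V →L[ℝ] ℝ) {f : M → V} {b₀ : M}
    (hf : ContMDiffAt 𝓘(ℝ, E) 𝓘(ℝ, V) ∞ f b₀) :
    ContMDiffAt 𝓘(ℝ, E) (𝓘(ℝ, E).prod 𝓘(ℝ, E →L[ℝ] E →L[ℝ] ℝ)) ∞
      (fun b ↦ TotalSpace.mk' (E →L[ℝ] E →L[ℝ] ℝ)
        (E := fun b : M ↦ TangentSpace 𝓘(ℝ, E) b →L[ℝ] TangentSpace 𝓘(ℝ, E) b →L[ℝ] ℝ)
        b (pullForm (E := E) B f b)) b₀ := by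
  rw [contMDiffAt_section]
  have hA := hf.mfderiv_const (m := ∞) (by simp)
  set A := inTangentCoordinates 𝓘(ℝ, E) 𝓘(ℝ, V) id f
    (fun b => mfderiv 𝓘(ℝ, E) 𝓘(ℝ, V) f b) b₀ with hAdef
  have h1 : ContMDiffAt 𝓘(ℝ, E) 𝓘(ℝ, E →L[ℝ] E →L[ℝ] ℝ) ∞
      (fun b => (((ContinuousLinearMap.compL ℝ E V ℝ).flip) (A b)).comp (B.comp (A b))) b₀ := by
    have e1 : ContMDiffAt 𝓘(ℝ, E) 𝓘(ℝ, E →L[ℝ] V →L[ℝ] ℝ) ∞ (fun b => B.comp (A b)) b₀ :=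
      contMDiffAt_const.clm_comp hA
    have e2 : ContMDiffAt 𝓘(ℝ, E) 𝓘(ℝ, (V →L[ℝ] ℝ) →L[ℝ] (E →L[ℝ] ℝ)) ∞
        (fun b => ((ContinuousLinearMap.compL ℝ E V ℝ).flip) (A b)) b₀ :=
      contMDiffAt_const.clm_apply hA
    exact e2.clm_comp e1
  refine h1.congr_of_eventuallyEq ?_
  filter_upwards [(chartAt E b₀).open_source.mem_nhds (mem_chart_source _ _)] with b hb
  ext v w
  have hb' : b ∈ (trivializationAt E (TangentSpace 𝓘(ℝ, E)) b₀).baseSet := hb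
  rw [hom_trivializationAt_apply]
  rw [inCoordinates_apply_eq₂ hb' hb' (Set.mem_univ _)]
  have hs : ∀ u : E, (Trivialization.symmL ℝ (trivializationAt E (TangentSpace 𝓘(ℝ, E)) b₀) b) u
      = (trivializationAt E (TangentSpace 𝓘(ℝ, E)) b₀).symm b u := fun u =>
    Trivialization.symmL_apply _ hb' u
  simp [hAdef, inTangentCoordinates, ContinuousLinearMap.inCoordinates]
  rw [hs, hs]
  rfl

end Run7.h611
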