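import Mathlib

/-!
Riemannian symmetric spaces in the language of Mathlib's manifolds, the two-number of
Chen and Nagano, and the total mod 2 Betti number (singular homology with coefficients `ℤ/2`).
-/

open scoped Manifold ContDiff Bundle
open CategoryTheory AlgebraicTopology

noncomputable section

namespace Run7.h611

/-- A Riemannian symmetric space structure on the smooth manifold `M` (without boundary, modelled
on the real normed space `E`): a smooth Riemannian metric on `M` together with, for every point
`x`, the geodesic symmetry `sym x` at `x`, that is, a diffeomorphism of `M` onto itself which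
preserves the metric, fixes `x` and has differential `-id` on the tangent space at `x`. -/
structure RiemannianSymmetricSpace (E : Type) [NormedAddCommGroup E] [NormedSpace ℝ E]
    (M : Type) [TopologicalSpace M] [ChartedSpace E M] [IsManifold 𝓘(ℝ, E) ∞ M] where
  /-- the Riemannian metric -/
  metric : Bundle.ContMDiffRiemannianMetric 𝓘(ℝ, E) ∞ E (fun x : M => TangentSpace 𝓘(ℝ, E) x)
  /-- the geodesic symmetries -/
  sym : M → Diffeomorph 𝓘(ℝ, E) 𝓘(ℝ, E) M M ∞
  /-- each symmetry is an isometry of the metric -/
  isometry : ∀ (x y : M) (v w : TangentSpace 𝓘(ℝ, E) y),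
    metric.inner (sym x y) (mfderiv 𝓘(ℝ, E) 𝓘(ℝ, E) (sym x) y v)
      (mfderiv 𝓘(ℝ, E) 𝓘(ℝ, E) (sym x) y w) = metric.inner y v w
  /-- the symmetry at `x` fixes `x` -/
  fixes : ∀ x, sym x x = x
  /-- the differential of the symmetry at `x` is `-id` on the tangent space at `x` -/
  differential : ∀ x, HasMFDerivAt 𝓘(ℝ, E) 𝓘(ℝ, E) (sym x) x (-ContinuousLinearMap.id ℝ E)

variable {E : Type} [NormedAddCommGroup E] [NormedSpace ℝ E]
  {M : Type} [TopologicalSpace M] [ChartedSpace E M] [IsManifold 𝓘(ℝ, E) ∞ M]

/-- A subset `A` is antipodal if the symmetry at each point of `A` fixes every point of `A`. -/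
def RiemannianSymmetricSpace.IsAntipodal (S : RiemannianSymmetricSpace E M) (A : Set M) : Prop :=
  ∀ x ∈ A, ∀ y ∈ A, S.sym x y = y

/-- The two-number: the supremum of the cardinalities of the antipodal subsets. -/
def RiemannianSymmetricSpace.twoNumber (S : RiemannianSymmetricSpace E M) : Cardinal.{0} :=
  ⨆ A : {A : Set M // S.IsAntipodal A}, Cardinal.mk A.1

/-- The total mod 2 Betti number of a space: the sum over all `i` of the dimension over `ℤ/2` of
the `i`-th singular homology group with coefficients in `ℤ/2`. -/
def totalBettiTwo (M : Type) [TopologicalSpace M] : Cardinal.{0} :=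
  Cardinal.sum fun i : ℕ => Module.rank (ZMod 2)
    (((singularHomologyFunctor (ModuleCat.{0} (ZMod 2)) i).obj
      (ModuleCat.of (ZMod 2) (ZMod 2))).obj (TopCat.of M))

/-- The total mod 2 Betti number is invariant under homeomorphisms. -/
theorem totalBettiTwo_congr {M N : Type} [TopologicalSpace M] [TopologicalSpace N]
    (h : M ≃ₜ N) : totalBettiTwo M = totalBettiTwo N := by
  unfold totalBettiTwo
  congr 1
  funext i
  have e := (((singularHomologyFunctor (ModuleCat.{0} (ZMod 2)) i).obj
      (ModuleCat.of (ZMod 2) (ZMod 2))).mapIso (TopCat.isoOfHomeo (X := TopCat.of M)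
        (Y := TopCat.of N) h)).toLinearEquiv
  exact e.rank_eq

end Run7.h611
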