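import Pool.Agent.Run7.h611.QuotManifold
import Pool.Agent.Run7.h611.PullMetric
import Pool.Agent.Run7.h611.SymSpace

/-! A Riemannian symmetric space structure on the base of a covering of a submanifold. -/

open scoped Manifold ContDiff Topology Bundle
open Set Bundle

noncomputable section

namespace Run7.h611

section lifting

variable {X Q : Type} [TopologicalSpace X] [TopologicalSpace Q] {p : X → Q}

/-- Local lifting of a map covered by a map upstairs. -/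
theorem lift_eventually (hp : IsLocalHomeomorph p) {F : Q → Q} {Ft : X → X} {y₀ y' : X} {q : Q}
    (hq : q ∈ (hp.localInverseAt y₀).source)
    (hFt : ContinuousAt Ft (hp.localInverseAt y₀ q))
    (h : ∀ w, p (Ft w) = F (p w)) (hy : Ft (hp.localInverseAt y₀ q) = y') :
    ∀ᶠ r in 𝓝 q, hp.localInverseAt y' (F r) = Ft (hp.localInverseAt y₀ r) := by
  have hc : ContinuousAt (hp.localInverseAt y₀) q :=
    (hp.localInverseAt y₀).continuousAt hq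
  have hc2 : ContinuousAt (fun r => Ft (hp.localInverseAt y₀ r)) q := hFt.comp hc
  have hmem : Ft (hp.localInverseAt y₀ q) ∈ (hp.localInverseAt y').target := by
    rw [hy]; exact hp.self_mem_localInverseAt_target
  have hev := hc2.eventually ((hp.localInverseAt y').open_target.mem_nhds hmem)
  filter_upwards [hev, (hp.localInverseAt y₀).open_source.mem_nhds hq] with r hr hr2
  have h1 := (hp.localInverseAt y').right_inv hr
  rw [hp.localInverseAt_symm, h, hp.apply_localInverseAt_of_mem hr2] at h1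
  exact h1

end lifting

/-- The data of a covering `p : X → Q` of a space `X` immersed in `V` for which the deck
transformations and the symmetries of `X` are restrictions of linear isometries of `(V, B)`. -/
structure CoverData (E V X Q : Type) [NormedAddCommGroup E] [NormedSpace ℝ E]
    [NormedAddCommGroup V] [NormedSpace ℝ V]
    [TopologicalSpace X] [ChartedSpace E X] [TopologicalSpace Q] [ChartedSpace E Q] where
  p : X → Q
  hp : IsLocalHomeomorph p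
  hs : Function.Surjective p
  smooth_p : ContMDiff 𝓘(ℝ, E) 𝓘(ℝ, E) ∞ p
  smooth_inv : ∀ x, ContMDiffAt 𝓘(ℝ, E) 𝓘(ℝ, E) ∞ (hp.localInverseAt x) (p x)
  ι : X → V
  hι : ContMDiff 𝓘(ℝ, E) 𝓘(ℝ, V) ∞ ι
  hinj : ∀ x, Function.Injective (mfderiv 𝓘(ℝ, E) 𝓘(ℝ, V) ι x)
  B : V →L[ℝ] V →L[ℝ] ℝ
  Bsymm : ∀ u v, B u v = B v u
  Bpos : ∀ u, u ≠ 0 → 0 < B u u
  deck : ∀ x x', p x = p x' → ∃ (γ : X → X) (L : V →L[ℝ] V),
    ContMDiff 𝓘(ℝ, E) 𝓘(ℝ, E) ∞ γ ∧ γ x = x' ∧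
     (∀ y, p (γ y) = p y) ∧ (∀ y, ι (γ y) = L (ι y)) ∧ ∀ u v, B (L u) (L v) = B u v
  σ : X → X → X
  Lσ : X → V →L[ℝ] V
  hσ : ∀ x, ContMDiff 𝓘(ℝ, E) 𝓘(ℝ, E) ∞ (σ x)
  σι : ∀ x y, ι (σ x y) = Lσ x (ι y)
  σB : ∀ x u v, B (Lσ x u) (Lσ x v) = B u v
  σσ : ∀ x y, σ x (σ x y) = y
  σfix : ∀ x, σ x x = x
  σneg : ∀ x u, Lσ x (mfderiv 𝓘(ℝ, E) 𝓘(ℝ, V) ι x u) = - mfderiv 𝓘(ℝ, E) 𝓘(ℝ, V) ι x u
  s : Q → Q → Q
  sp : ∀ x y, s (p x) (p y) = p (σ x y)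

namespace CoverData

variable {E V X Q : Type} [NormedAddCommGroup E] [NormedSpace ℝ E]
    [NormedAddCommGroup V] [NormedSpace ℝ V]
    [TopologicalSpace X] [ChartedSpace E X] [IsManifold 𝓘(ℝ, E) ∞ X]
    [TopologicalSpace Q] [ChartedSpace E Q] [IsManifold 𝓘(ℝ, E) ∞ Q]
    (D : CoverData E V X Q)

/-- the local inverse of `p` through `y` followed by the immersion -/
def fl (y : X) (r : Q) : V := D.ι (D.hp.localInverseAt y r)

omit [IsManifold 𝓘(ℝ, E) ∞ X] [IsManifold 𝓘(ℝ, E) ∞ Q] in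
theorem smooth_inv' (y : X) {q : Q} (hq : q ∈ (D.hp.localInverseAt y).source) :
    ContMDiffAt 𝓘(ℝ, E) 𝓘(ℝ, E) ∞ (D.hp.localInverseAt y) q := by
  have h := lift_eventually D.hp (F := id) (Ft := id) hq continuousAt_id (fun _ => rfl) rfl
  have h2 := D.smooth_inv (D.hp.localInverseAt y q)
  rw [D.hp.apply_localInverseAt_of_mem hq] at h2
  refine h2.congr_of_eventuallyEq ?_
  filter_upwards [h] with r hr
  exact hr.symm

omit [IsManifold 𝓘(ℝ, E) ∞ X] [IsManifold 𝓘(ℝ, E) ∞ Q] in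
theorem smooth_fl (y : X) {q : Q} (hq : q ∈ (D.hp.localInverseAt y).source) :
    ContMDiffAt 𝓘(ℝ, E) 𝓘(ℝ, V) ∞ (D.fl y) q :=
  D.hι.contMDiffAt.comp q (D.smooth_inv' y hq)

omit [IsManifold 𝓘(ℝ, E) ∞ X] [IsManifold 𝓘(ℝ, E) ∞ Q] in
theorem mdiff_fl (y : X) {q : Q} (hq : q ∈ (D.hp.localInverseAt y).source) :
    MDifferentiableAt 𝓘(ℝ, E) 𝓘(ℝ, V) (D.fl y) q :=
  (D.smooth_fl y hq).mdifferentiableAt (by simp)

omit [IsManifold 𝓘(ℝ, E) ∞ X] [IsManifold 𝓘(ℝ, E) ∞ Q] in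
theorem mem_source (y : X) : D.p y ∈ (D.hp.localInverseAt y).source :=
  D.hp.apply_self_mem_localInverseAt_source

/-- a chosen preimage -/
def inv (q : Q) : X := Function.surjInv D.hs q

omit [IsManifold 𝓘(ℝ, E) ∞ X] [IsManifold 𝓘(ℝ, E) ∞ Q] in
theorem p_inv (q : Q) : D.p (D.inv q) = q := Function.surjInv_eq D.hs q

omit [IsManifold 𝓘(ℝ, E) ∞ X] [IsManifold 𝓘(ℝ, E) ∞ Q] in
theorem inv_mem (q : Q) : q ∈ (D.hp.localInverseAt (D.inv q)).source := by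
  have h := D.mem_source (D.inv q)
  rwa [D.p_inv] at h

omit [IsManifold 𝓘(ℝ, E) ∞ X] [IsManifold 𝓘(ℝ, E) ∞ Q] in
/-- differentiating `fl y' ∘ F = L ∘ fl y₀`. -/
theorem mfderiv_rel {F : Q → Q} {q : Q} {y₀ y' : X} {L : V →L[ℝ] V}
    (hq : q ∈ (D.hp.localInverseAt y₀).source) (hq' : F q ∈ (D.hp.localInverseAt y').source)
    (hF : MDifferentiableAt 𝓘(ℝ, E) 𝓘(ℝ, E) F q)
    (h : ∀ᶠ r in 𝓝 q, D.fl y' (F r) = L (D.fl y₀ r)) (u : TangentSpace 𝓘(ℝ, E) q) :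
    mfderiv 𝓘(ℝ, E) 𝓘(ℝ, V) (D.fl y') (F q) (mfderiv 𝓘(ℝ, E) 𝓘(ℝ, E) F q u) =
      L (mfderiv 𝓘(ℝ, E) 𝓘(ℝ, V) (D.fl y₀) q u) := by
  have h1 : HasMFDerivAt 𝓘(ℝ, E) 𝓘(ℝ, V) (D.fl y' ∘ F) q
      ((mfderiv 𝓘(ℝ, E) 𝓘(ℝ, V) (D.fl y') (F q)).comp (mfderiv 𝓘(ℝ, E) 𝓘(ℝ, E) F q)) :=
    (D.mdiff_fl y' hq').hasMFDerivAt.comp q hF.hasMFDerivAt
  have h2 : HasMFDerivAt 𝓘(ℝ, E) 𝓘(ℝ, V) (L ∘ D.fl y₀) q
      (ContinuousLinearMap.comp (M₂ := V) L (mfderiv 𝓘(ℝ, E) 𝓘(ℝ, V) (D.fl y₀) q)) :=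
    (L.hasMFDerivAt).comp q (D.mdiff_fl y₀ hq).hasMFDerivAt
  have h3 : HasMFDerivAt 𝓘(ℝ, E) 𝓘(ℝ, V) (L ∘ D.fl y₀) q
      ((mfderiv 𝓘(ℝ, E) 𝓘(ℝ, V) (D.fl y') (F q)).comp (mfderiv 𝓘(ℝ, E) 𝓘(ℝ, E) F q)) := by
    refine h1.congr_of_eventuallyEq ?_
    filter_upwards [h] with r hr
    exact hr.symm
  have h4 := hasMFDerivAt_unique h3 h2
  exact congrArg (fun T => T u) h4

/-- The metric form at a point. -/
def form (q : Q) : TangentSpace 𝓘(ℝ, E) q →L[ℝ] TangentSpace 𝓘(ℝ, E) q →L[ℝ] ℝ :=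
  pullForm (E := E) D.B (D.fl (D.inv q)) q

omit [IsManifold 𝓘(ℝ, E) ∞ X] [IsManifold 𝓘(ℝ, E) ∞ Q] in
theorem form_apply (q : Q) (u v : TangentSpace 𝓘(ℝ, E) q) :
    D.form q u v = D.B (mfderiv 𝓘(ℝ, E) 𝓘(ℝ, V) (D.fl (D.inv q)) q u)
      (mfderiv 𝓘(ℝ, E) 𝓘(ℝ, V) (D.fl (D.inv q)) q v) := rfl

omit [IsManifold 𝓘(ℝ, E) ∞ X] [IsManifold 𝓘(ℝ, E) ∞ Q] in
/-- two local inverses differ by a linear isometry -/
theorem fl_rel (y₀ y' : X) {q : Q} (hq : q ∈ (D.hp.localInverseAt y₀).source)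
    (hq' : D.p y' = q) :
    ∃ L : V →L[ℝ] V, (∀ u v, D.B (L u) (L v) = D.B u v) ∧
      ∀ᶠ r in 𝓝 q, D.fl y' r = L (D.fl y₀ r) := by
  have h1 : D.p (D.hp.localInverseAt y₀ q) = D.p y' := by
    rw [hq', D.hp.apply_localInverseAt_of_mem hq]
  obtain ⟨γ, L, hγ, hγx, hγp, hγι, hL⟩ := D.deck _ _ h1
  refine ⟨L, hL, ?_⟩
  have h := lift_eventually D.hp (F := id) (Ft := γ) hq hγ.continuous.continuousAt hγp hγx
  filter_upwards [h] with r hr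
  unfold fl
  rw [← hγι, ← hr]
  rfl

omit [IsManifold 𝓘(ℝ, E) ∞ X] [IsManifold 𝓘(ℝ, E) ∞ Q] in
theorem form_eq (y₀ : X) {q : Q} (hq : q ∈ (D.hp.localInverseAt y₀).source) :
    D.form q = pullForm (E := E) D.B (D.fl y₀) q := by
  obtain ⟨L, hL, h⟩ := D.fl_rel y₀ (D.inv q) hq (D.p_inv q)
  have key : ∀ u : TangentSpace 𝓘(ℝ, E) q,
      mfderiv 𝓘(ℝ, E) 𝓘(ℝ, V) (D.fl (D.inv q)) q u =
      L (mfderiv 𝓘(ℝ, E) 𝓘(ℝ, V) (D.fl y₀) q u) := by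
    intro u
    have := D.mfderiv_rel (F := id) (q := q) (y₀ := y₀) (y' := D.inv q) (L := L) hq (D.inv_mem q)
      mdifferentiableAt_id h u
    rw [mfderiv_id] at this
    exact this
  ext u v
  rw [form_apply, pullForm_apply, key, key, hL]

omit [IsManifold 𝓘(ℝ, E) ∞ X] in
theorem form_smooth : ContMDiff 𝓘(ℝ, E) (𝓘(ℝ, E).prod 𝓘(ℝ, E →L[ℝ] E →L[ℝ] ℝ)) ∞
      (fun b ↦ TotalSpace.mk' (E →L[ℝ] E →L[ℝ] ℝ)
        (E := fun b : Q ↦ TangentSpace 𝓘(ℝ, E) b →L[ℝ] TangentSpace 𝓘(ℝ, E) b →L[ℝ] ℝ)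
        b (D.form b)) := by
  intro q
  have h := contMDiffAt_pullForm (E := E) D.B (D.smooth_fl (D.inv q) (D.inv_mem q))
  refine h.congr_of_eventuallyEq ?_
  filter_upwards [(D.hp.localInverseAt (D.inv q)).open_source.mem_nhds (D.inv_mem q)] with r hr
  rw [D.form_eq _ hr]

omit [IsManifold 𝓘(ℝ, E) ∞ X] [IsManifold 𝓘(ℝ, E) ∞ Q] in
theorem fl_injective (q : Q) :
    Function.Injective (mfderiv 𝓘(ℝ, E) 𝓘(ℝ, V) (D.fl (D.inv q)) q) := by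
  have hq := D.inv_mem q
  set y := D.inv q with hy
  have h1 : HasMFDerivAt 𝓘(ℝ, E) 𝓘(ℝ, V) (D.ι ∘ D.hp.localInverseAt y) q
      ((mfderiv 𝓘(ℝ, E) 𝓘(ℝ, V) D.ι (D.hp.localInverseAt y q)).comp
        (mfderiv 𝓘(ℝ, E) 𝓘(ℝ, E) (D.hp.localInverseAt y) q)) :=
    ((D.hι _).mdifferentiableAt (by simp)).hasMFDerivAt.comp q
      ((D.smooth_inv' y hq).mdifferentiableAt (by simp)).hasMFDerivAt
  have h2 : mfderiv 𝓘(ℝ, E) 𝓘(ℝ, V) (D.fl y) q = _ := h1.mfderiv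
  rw [h2]
  have h3 : HasMFDerivAt 𝓘(ℝ, E) 𝓘(ℝ, E) (D.p ∘ D.hp.localInverseAt y) q
      ((mfderiv 𝓘(ℝ, E) 𝓘(ℝ, E) D.p (D.hp.localInverseAt y q)).comp
        (mfderiv 𝓘(ℝ, E) 𝓘(ℝ, E) (D.hp.localInverseAt y) q)) :=
    ((D.smooth_p _).mdifferentiableAt (by simp)).hasMFDerivAt.comp q
      ((D.smooth_inv' y hq).mdifferentiableAt (by simp)).hasMFDerivAt
  have h4 : HasMFDerivAt 𝓘(ℝ, E) 𝓘(ℝ, E) (D.p ∘ D.hp.localInverseAt y) q
      (ContinuousLinearMap.id ℝ (TangentSpace 𝓘(ℝ, E) q)) := by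
    refine (hasMFDerivAt_id q).congr_of_eventuallyEq ?_
    filter_upwards [(D.hp.localInverseAt y).open_source.mem_nhds hq] with r hr
    exact D.hp.apply_localInverseAt_of_mem hr
  have h5 := hasMFDerivAt_unique h3 h4
  have hinj : Function.Injective (mfderiv 𝓘(ℝ, E) 𝓘(ℝ, E) (D.hp.localInverseAt y) q) := by
    intro u v huv
    have e1 : mfderiv 𝓘(ℝ, E) 𝓘(ℝ, E) D.p (D.hp.localInverseAt y q)
        (mfderiv 𝓘(ℝ, E) 𝓘(ℝ, E) (D.hp.localInverseAt y) q u) = u :=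
      congrArg (fun T => T u) h5
    have e2 : mfderiv 𝓘(ℝ, E) 𝓘(ℝ, E) D.p (D.hp.localInverseAt y q)
        (mfderiv 𝓘(ℝ, E) 𝓘(ℝ, E) (D.hp.localInverseAt y) q v) = v :=
      congrArg (fun T => T v) h5
    rw [huv] at e1
    exact e1.symm.trans e2
  intro u v huv
  exact hinj (D.hinj _ huv)

end CoverData

section

/-- A positive definite continuous bilinear form on a finite dimensional space has bounded
unit ball. -/
theorem bounded_of_posDef {E : Type*} [NormedAddCommGroup E] [NormedSpace ℝ E]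
    [FiniteDimensional ℝ E] (G : E →L[ℝ] E →L[ℝ] ℝ) (hG : ∀ v, v ≠ 0 → 0 < G v v) :
    Bornology.IsVonNBounded ℝ {v : E | G v v < 1} := by
  rw [NormedSpace.isVonNBounded_iff ℝ, Metric.isBounded_iff_subset_closedBall (0 : E)]
  by_cases hne : (Metric.sphere (0 : E) 1).Nonempty
  · have hcomp : IsCompact (Metric.sphere (0 : E) 1) := isCompact_sphere _ _
    obtain ⟨w, hw, hmin⟩ := hcomp.exists_isMinOn hne
      (f := fun v => G v v) (by fun_prop)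
    have hw0 : w ≠ 0 := by
      intro h; rw [h] at hw; simp at hw
    have hc := hG w hw0
    set c := G w w with hcdef
    refine ⟨(Real.sqrt c)⁻¹, fun v hv => ?_⟩
    rw [mem_closedBall_zero_iff]
    by_cases hv0 : v = 0
    · rw [hv0, norm_zero]; positivity
    have hnv : 0 < ‖v‖ := norm_pos_iff.2 hv0
    have hmem : (‖v‖⁻¹ • v) ∈ Metric.sphere (0 : E) 1 := by
      rw [mem_sphere_zero_iff_norm, norm_smul, norm_inv, norm_norm, inv_mul_cancel₀ hnv.ne']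
    have h1 : c ≤ G (‖v‖⁻¹ • v) (‖v‖⁻¹ • v) := hmin hmem
    simp only [map_smul, smul_apply, smul_eq_mul] at h1
    have h2 : G v v < 1 := hv
    have h3 : c * ‖v‖ ^ 2 ≤ G v v := by
      have : ‖v‖⁻¹ * (‖v‖⁻¹ * (G v) v) * ‖v‖ ^ 2 = G v v := by
        field_simp
      calc c * ‖v‖ ^ 2 ≤ (‖v‖⁻¹ * (‖v‖⁻¹ * (G v) v)) * ‖v‖ ^ 2 := by gcongr
        _ = G v v := this
    have h4 : (Real.sqrt c * ‖v‖) ^ 2 < 1 := by
      rw [mul_pow, Real.sq_sqrt hc.le]; linarith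
    have h5 : Real.sqrt c * ‖v‖ < 1 := by
      nlinarith [Real.sqrt_nonneg c, mul_nonneg (Real.sqrt_nonneg c) hnv.le]
    have hs : 0 < Real.sqrt c := Real.sqrt_pos.2 hc
    rw [inv_eq_one_div, le_div_iff₀ hs]
    linarith [mul_comm ‖v‖ (Real.sqrt c)]
  · refine ⟨0, fun v hv => ?_⟩
    have : v = 0 := by
      by_contra hv0
      apply hne
      refine ⟨‖v‖⁻¹ • v, ?_⟩
      rw [mem_sphere_zero_iff_norm, norm_smul, norm_inv, norm_norm,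
        inv_mul_cancel₀ (norm_pos_iff.2 hv0).ne']
    rw [this]; simp

end

namespace CoverData

variable {E V X Q : Type} [NormedAddCommGroup E] [NormedSpace ℝ E] [FiniteDimensional ℝ E]
    [NormedAddCommGroup V] [NormedSpace ℝ V]
    [TopologicalSpace X] [ChartedSpace E X]
    [TopologicalSpace Q] [ChartedSpace E Q] [IsManifold 𝓘(ℝ, E) ∞ Q]
    (D : CoverData E V X Q)

omit [FiniteDimensional ℝ E] [IsManifold 𝓘(ℝ, E) ∞ Q] in
theorem form_pos (q : Q) (v : TangentSpace 𝓘(ℝ, E) q) (hv : v ≠ 0) : 0 < D.form q v v := by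
  rw [form_apply]
  apply D.Bpos
  intro h
  apply hv
  apply D.fl_injective q
  rw [h]
  exact (map_zero (mfderiv 𝓘(ℝ, E) 𝓘(ℝ, V) (D.fl (D.inv q)) q)).symm

/-- The Riemannian metric on the base. -/
def metric : Bundle.ContMDiffRiemannianMetric 𝓘(ℝ, E) ∞ E
    (fun x : Q => TangentSpace 𝓘(ℝ, E) x) where
  inner := D.form
  symm q v w := by rw [form_apply, form_apply, D.Bsymm]
  pos q v hv := D.form_pos q v hv
  isVonNBounded q := bounded_of_posDef (E := E) (D.form q) (D.form_pos q)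
  contMDiff := D.form_smooth

omit [FiniteDimensional ℝ E] [IsManifold 𝓘(ℝ, E) ∞ Q] in
theorem s_smooth (q : Q) : ContMDiff 𝓘(ℝ, E) 𝓘(ℝ, E) ∞ (D.s q) := by
  intro r
  have h1 : ContMDiffAt 𝓘(ℝ, E) 𝓘(ℝ, E) ∞
      (fun r' => D.p (D.σ (D.inv q) (D.hp.localInverseAt (D.inv r) r'))) r :=
    (D.smooth_p _).comp r ((D.hσ _ _).comp r (D.smooth_inv' _ (D.inv_mem r)))
  refine h1.congr_of_eventuallyEq ?_
  filter_upwards [(D.hp.localInverseAt (D.inv r)).open_source.mem_nhds (D.inv_mem r)] with r' hr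
  rw [← D.sp, D.p_inv, D.hp.apply_localInverseAt_of_mem hr]

omit [FiniteDimensional ℝ E] [IsManifold 𝓘(ℝ, E) ∞ Q] in
theorem s_s (q r : Q) : D.s q (D.s q r) = r := by
  rw [← D.p_inv q, ← D.p_inv r, D.sp, D.sp, D.σσ]

/-- The symmetries as diffeomorphisms. -/
def symDiffeo (q : Q) : Diffeomorph 𝓘(ℝ, E) 𝓘(ℝ, E) Q Q ∞ where
  toFun := D.s q
  invFun := D.s q
  left_inv := D.s_s q
  right_inv := D.s_s q
  contMDiff_toFun := D.s_smooth q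
  contMDiff_invFun := D.s_smooth q

omit [FiniteDimensional ℝ E] [IsManifold 𝓘(ℝ, E) ∞ Q] in
/-- the symmetry at `p x` lifted near `r` -/
theorem s_rel (x : X) (r : Q) :
    ∃ L : V →L[ℝ] V, (∀ u v, D.B (L u) (L v) = D.B u v) ∧
      ∀ᶠ r' in 𝓝 r, D.fl (D.inv (D.s (D.p x) r)) (D.s (D.p x) r') = L (D.fl (D.inv r) r') := by
  have hr := D.inv_mem r
  have h1 : D.p (D.σ x (D.hp.localInverseAt (D.inv r) r)) =
      D.p (D.inv (D.s (D.p x) r)) := by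
    rw [D.p_inv, ← D.sp, D.hp.apply_localInverseAt_of_mem hr]
  obtain ⟨γ, L, hγ, hγx, hγp, hγι, hL⟩ := D.deck _ _ h1
  refine ⟨L.comp (D.Lσ x), fun u v => ?_, ?_⟩
  · rw [ContinuousLinearMap.comp_apply, ContinuousLinearMap.comp_apply, hL, D.σB]
  have h := lift_eventually D.hp (F := D.s (D.p x)) (Ft := fun w => γ (D.σ x w)) hr
    ((hγ.continuous.comp (D.hσ x).continuous).continuousAt)
    (fun w => by rw [hγp, D.sp]) hγx
  filter_upwards [h] with r' hr'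
  unfold fl
  rw [hr', hγι, D.σι]
  rfl

omit [FiniteDimensional ℝ E] [IsManifold 𝓘(ℝ, E) ∞ Q] in
theorem s_isometry (q r : Q) (v w : TangentSpace 𝓘(ℝ, E) r) :
    D.form (D.s q r) (mfderiv 𝓘(ℝ, E) 𝓘(ℝ, E) (D.s q) r v)
      (mfderiv 𝓘(ℝ, E) 𝓘(ℝ, E) (D.s q) r w) = D.form r v w := by
  obtain ⟨x, rfl⟩ := D.hs q
  obtain ⟨L, hL, h⟩ := D.s_rel x r
  rw [form_apply, form_apply]
  have hd : MDifferentiableAt 𝓘(ℝ, E) 𝓘(ℝ, E) (D.s (D.p x)) r :=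
    (D.s_smooth _ _).mdifferentiableAt (by simp)
  rw [D.mfderiv_rel (D.inv_mem r) (D.inv_mem _) hd h v,
    D.mfderiv_rel (D.inv_mem r) (D.inv_mem _) hd h w, hL]

omit [FiniteDimensional ℝ E] [IsManifold 𝓘(ℝ, E) ∞ Q] in
theorem s_fix (q : Q) : D.s q q = q := by
  obtain ⟨x, rfl⟩ := D.hs q
  rw [D.sp, D.σfix]

omit [FiniteDimensional ℝ E] [IsManifold 𝓘(ℝ, E) ∞ Q] in
theorem s_differential (q : Q) :
    HasMFDerivAt 𝓘(ℝ, E) 𝓘(ℝ, E) (D.s q) q (-ContinuousLinearMap.id ℝ E) := by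
  have hd : MDifferentiableAt 𝓘(ℝ, E) 𝓘(ℝ, E) (D.s q) q :=
    (D.s_smooth _ _).mdifferentiableAt (by simp)
  have hpx : D.p (D.inv q) = q := D.p_inv q
  set x := D.inv q with hx
  have hq := D.inv_mem q
  rw [← hx] at hq
  have hlx : D.hp.localInverseAt x q = x := by
    have := D.hp.localInverseAt_apply_self (x := x)
    rwa [hpx] at this
  have hrel : ∀ᶠ r' in 𝓝 q, D.fl x (D.s q r') = D.Lσ x (D.fl x r') := by
    have h := lift_eventually D.hp (F := D.s q) (Ft := D.σ x) (y' := x) hq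
      ((D.hσ x).continuous.continuousAt)
      (fun w => by rw [← D.sp, hpx]) (by rw [hlx, D.σfix])
    filter_upwards [h] with r' hr'
    unfold fl
    rw [hr', D.σι]
  have hsq := D.s_fix q
  have h2 := fun u => D.mfderiv_rel (F := D.s q) (q := q) (y₀ := x) (y' := x) hq
    (by rw [hsq]; exact hq) hd hrel u
  -- the derivative of `fl x` at `q` takes values in the range of the derivative of `ι` at `x`
  have h3 : ∀ u : TangentSpace 𝓘(ℝ, E) q, D.Lσ x (mfderiv 𝓘(ℝ, E) 𝓘(ℝ, V) (D.fl x) q u) =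
      - mfderiv 𝓘(ℝ, E) 𝓘(ℝ, V) (D.fl x) q u := by
    intro u
    have h1 : HasMFDerivAt 𝓘(ℝ, E) 𝓘(ℝ, V) (D.ι ∘ D.hp.localInverseAt x) q
        ((mfderiv 𝓘(ℝ, E) 𝓘(ℝ, V) D.ι (D.hp.localInverseAt x q)).comp
          (mfderiv 𝓘(ℝ, E) 𝓘(ℝ, E) (D.hp.localInverseAt x) q)) :=
      ((D.hι _).mdifferentiableAt (by simp)).hasMFDerivAt.comp q
        ((D.smooth_inv' x hq).mdifferentiableAt (by simp)).hasMFDerivAt
    have h2 : mfderiv 𝓘(ℝ, E) 𝓘(ℝ, V) (D.fl x) q = _ := h1.mfderiv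
    rw [h2, hlx]
    exact D.σneg x _
  have key : ∀ u : TangentSpace 𝓘(ℝ, E) q, mfderiv 𝓘(ℝ, E) 𝓘(ℝ, E) (D.s q) q u = -u := by
    intro u
    have e := h2 u
    rw [h3] at e
    have hh : ∀ r : Q, r = q → ∀ w : E,
        (mfderiv 𝓘(ℝ, E) 𝓘(ℝ, V) (D.fl x) r : E →L[ℝ] V) w =
        (mfderiv 𝓘(ℝ, E) 𝓘(ℝ, V) (D.fl x) q : E →L[ℝ] V) w := by
      rintro r rfl w; rfl
    have e2 : (mfderiv 𝓘(ℝ, E) 𝓘(ℝ, V) (D.fl x) q : E →L[ℝ] V)
        (mfderiv 𝓘(ℝ, E) 𝓘(ℝ, E) (D.s q) q u) =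
        (mfderiv 𝓘(ℝ, E) 𝓘(ℝ, V) (D.fl x) q : E →L[ℝ] V) (-u) := by
      rw [← hh _ hsq]
      refine Eq.trans e ?_
      exact (map_neg (mfderiv 𝓘(ℝ, E) 𝓘(ℝ, V) (D.fl x) q : E →L[ℝ] V) u).symm
    exact D.fl_injective q e2
  have h5 := hd.hasMFDerivAt
  convert! h5 using 1
  ext u
  exact (key u).symm

/-- The Riemannian symmetric space structure on the base of the covering. -/
def toSymmetricSpace : RiemannianSymmetricSpace E Q where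
  metric := D.metric
  sym := D.symDiffeo
  isometry := D.s_isometry
  fixes := D.s_fix
  differential := D.s_differential

end CoverData

end Run7.h611
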