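import Mathlib

/-! Smooth structure on the base of a local homeomorphism with smooth deck transformations. -/

open scoped Manifold ContDiff Topology
open Set

namespace Run7.h611

variable {E : Type*} [NormedAddCommGroup E] [NormedSpace ℝ E]
  {X : Type*} [TopologicalSpace X] [ChartedSpace E X]
  {Q : Type*} [TopologicalSpace Q] {p : X → Q}

/-- Any two points in the same fibre of `p` are exchanged by a smooth map over the base. -/
def SmoothDeck (E : Type*) [NormedAddCommGroup E] [NormedSpace ℝ E]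
    {X : Type*} [TopologicalSpace X] [ChartedSpace E X] {Q : Type*} (p : X → Q) : Prop :=
  ∀ x x', p x = p x' → ∃ γ : X → X, ContMDiff 𝓘(ℝ, E) 𝓘(ℝ, E) ∞ γ ∧ γ x = x' ∧
    ∀ y, p (γ y) = p y

/-- The charted space structure on the base of a surjective local homeomorphism. -/
@[reducible] noncomputable def quotCharted (hp : IsLocalHomeomorph p)
    (hs : Function.Surjective p) : ChartedSpace E Q where
  atlas := {c | ∃ x : X, ∃ c' ∈ atlas E X, c = (hp.localInverseAt x) ≫ₕ c'}
  chartAt q := hp.localInverseAt (Function.surjInv hs q) ≫ₕ chartAt E (Function.surjInv hs q)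
  mem_chart_source q := by
    have h := Function.surjInv_eq hs q
    have key : ∀ (x : X), p x = q → q ∈ (hp.localInverseAt x ≫ₕ chartAt E x).source := by
      rintro x rfl
      rw [OpenPartialHomeomorph.trans_source]
      refine ⟨hp.apply_self_mem_localInverseAt_source, ?_⟩
      rw [mem_preimage, hp.localInverseAt_apply_self]
      exact mem_chart_source _ _
    exact key _ h
  chart_mem_atlas q := ⟨_, _, chart_mem_atlas _ _, rfl⟩

/-- near a point, a local inverse of `p` composed with `p` is a deck map. -/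
lemma localInverse_comp_eventuallyEq [IsManifold 𝓘(ℝ, E) ∞ X]
    (hp : IsLocalHomeomorph p) (hd : SmoothDeck E p) (x₁ x : X)
    (hx : p x ∈ (hp.localInverseAt x₁).source) :
    ∃ γ : X → X, ContMDiff 𝓘(ℝ, E) 𝓘(ℝ, E) ∞ γ ∧
      (fun y => hp.localInverseAt x₁ (p y)) =ᶠ[𝓝 x] γ := by
  have h1 : p (hp.localInverseAt x₁ (p x)) = p x := hp.apply_localInverseAt_of_mem hx
  obtain ⟨γ, hγ, hγx, hγp⟩ := hd x (hp.localInverseAt x₁ (p x)) h1.symm
  refine ⟨γ, hγ, ?_⟩
  have hmem : γ x ∈ (hp.localInverseAt x₁).target := by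
    rw [hγx]; exact (hp.localInverseAt x₁).map_source hx
  have hev : ∀ᶠ y in 𝓝 x, γ y ∈ (hp.localInverseAt x₁).target :=
    hγ.continuous.continuousAt.eventually
      ((hp.localInverseAt x₁).open_target.mem_nhds hmem)
  filter_upwards [hev] with y hy
  rw [← hγp y]
  have := (hp.localInverseAt x₁).right_inv hy
  rwa [hp.localInverseAt_symm] at this

theorem quotIsManifold [IsManifold 𝓘(ℝ, E) ∞ X] (hp : IsLocalHomeomorph p)
    (hs : Function.Surjective p) (hd : SmoothDeck E p) :
    letI := quotCharted (E := E) hp hs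
    IsManifold 𝓘(ℝ, E) ∞ Q := by
  let := quotCharted (E := E) hp hs
  refine isManifold_of_contDiffOn 𝓘(ℝ, E) ∞ Q ?_
  rintro _ _ ⟨x₁, c₁, hc₁, rfl⟩ ⟨x₂, c₂, hc₂, rfl⟩
  intro z hz
  simp only [modelWithCornersSelf_coe, modelWithCornersSelf_coe_symm, preimage_id, range_id,
    inter_univ, OpenPartialHomeomorph.trans_symm_eq_symm_trans_symm] at hz
  -- unpack membership
  rw [OpenPartialHomeomorph.trans_source, OpenPartialHomeomorph.trans_source] at hz
  obtain ⟨⟨hz1, hz2⟩, hz3⟩ := hz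
  simp only [OpenPartialHomeomorph.symm_source, mem_preimage] at hz1 hz2
  simp only [OpenPartialHomeomorph.coe_trans, mem_preimage, Function.comp_apply,
    OpenPartialHomeomorph.trans_source, mem_inter_iff, hp.localInverseAt_symm] at hz3
  set x := c₁.symm z with hx
  obtain ⟨γ, hγ, hγe⟩ := localInverse_comp_eventuallyEq hp hd x₂ x hz3.1
  have hγx : γ x = hp.localInverseAt x₂ (p x) := hγe.eq_of_nhds.symm
  have hc1m : c₁ ∈ IsManifold.maximalAtlas 𝓘(ℝ, E) ∞ X :=
    IsManifold.subset_maximalAtlas hc₁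
  have hc2m : c₂ ∈ IsManifold.maximalAtlas 𝓘(ℝ, E) ∞ X :=
    IsManifold.subset_maximalAtlas hc₂
  have s1 : ContMDiffAt 𝓘(ℝ, E) 𝓘(ℝ, E) ∞ c₁.symm z :=
    contMDiffAt_symm_of_mem_maximalAtlas hc1m hz1
  have s2 : ContMDiffAt 𝓘(ℝ, E) 𝓘(ℝ, E) ∞ γ (c₁.symm z) := hγ.contMDiffAt
  have s3 : ContMDiffAt 𝓘(ℝ, E) 𝓘(ℝ, E) ∞ c₂ (γ (c₁.symm z)) := by
    refine contMDiffAt_of_mem_maximalAtlas hc2m ?_
    rw [← hx, hγx]; exact hz3.2
  have s4 : ContMDiffAt 𝓘(ℝ, E) 𝓘(ℝ, E) ∞ (fun w => c₂ (γ (c₁.symm w))) z :=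
    s3.comp z (s2.comp z s1)
  have s5 : ContDiffAt ℝ ∞ (fun w => c₂ (γ (c₁.symm w))) z := contMDiffAt_iff_contDiffAt.1 s4
  refine ContDiffAt.contDiffWithinAt (s5.congr_of_eventuallyEq ?_)
  have hcont : Filter.Tendsto c₁.symm (𝓝 z) (𝓝 x) := s1.continuousAt
  filter_upwards [hcont.eventually hγe] with w hw
  simp only [modelWithCornersSelf_coe, modelWithCornersSelf_coe_symm, Function.comp_apply, id_eq,
    OpenPartialHomeomorph.coe_trans, OpenPartialHomeomorph.trans_symm_eq_symm_trans_symm,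
    hp.localInverseAt_symm]
  rw [hw]

/-- The projection is smooth. -/
theorem contMDiff_proj [IsManifold 𝓘(ℝ, E) ∞ X] (hp : IsLocalHomeomorph p)
    (hs : Function.Surjective p) (hd : SmoothDeck E p) :
    letI := quotCharted (E := E) hp hs
    ContMDiff 𝓘(ℝ, E) 𝓘(ℝ, E) ∞ p := by
  let := quotCharted (E := E) hp hs
  have := quotIsManifold (E := E) hp hs hd
  intro x
  have hm : (hp.localInverseAt x ≫ₕ chartAt E x) ∈ IsManifold.maximalAtlas 𝓘(ℝ, E) ∞ Q :=
    IsManifold.subset_maximalAtlas ⟨x, _, chart_mem_atlas _ _, rfl⟩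
  have hx2 : chartAt E x x ∈ (hp.localInverseAt x ≫ₕ chartAt E x).target := by
    rw [OpenPartialHomeomorph.trans_target]
    refine ⟨(chartAt E x).map_source (mem_chart_source _ _), ?_⟩
    rw [mem_preimage, (chartAt E x).left_inv (mem_chart_source _ _)]
    exact hp.self_mem_localInverseAt_target
  have s1 := contMDiffAt_symm_of_mem_maximalAtlas hm hx2
  have s2 : ContMDiffAt 𝓘(ℝ, E) 𝓘(ℝ, E) ∞ (chartAt E x) x :=
    contMDiffAt_of_mem_maximalAtlas (IsManifold.chart_mem_maximalAtlas x) (mem_chart_source _ _)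
  refine (s1.comp x s2).congr_of_eventuallyEq ?_
  filter_upwards [(chartAt E x).open_source.mem_nhds (mem_chart_source _ _)] with y hy
  simp only [Function.comp_apply, OpenPartialHomeomorph.trans_symm_eq_symm_trans_symm,
    OpenPartialHomeomorph.coe_trans, hp.localInverseAt_symm]
  rw [(chartAt E x).left_inv hy]

/-- The local inverses of the projection are smooth. -/
theorem contMDiffAt_localInverse [IsManifold 𝓘(ℝ, E) ∞ X] (hp : IsLocalHomeomorph p)
    (hs : Function.Surjective p) (hd : SmoothDeck E p) (x : X) :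
    letI := quotCharted (E := E) hp hs
    ContMDiffAt 𝓘(ℝ, E) 𝓘(ℝ, E) ∞ (hp.localInverseAt x) (p x) := by
  let := quotCharted (E := E) hp hs
  have := quotIsManifold (E := E) hp hs hd
  have hm : (hp.localInverseAt x ≫ₕ chartAt E x) ∈ IsManifold.maximalAtlas 𝓘(ℝ, E) ∞ Q :=
    IsManifold.subset_maximalAtlas ⟨x, _, chart_mem_atlas _ _, rfl⟩
  have hx2 : p x ∈ (hp.localInverseAt x ≫ₕ chartAt E x).source := by
    rw [OpenPartialHomeomorph.trans_source]
    refine ⟨hp.apply_self_mem_localInverseAt_source, ?_⟩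
    rw [mem_preimage, hp.localInverseAt_apply_self]
    exact mem_chart_source _ _
  have s1 := contMDiffAt_of_mem_maximalAtlas hm hx2
  have s2 : ContMDiffAt 𝓘(ℝ, E) 𝓘(ℝ, E) ∞ (chartAt E x).symm
      ((hp.localInverseAt x ≫ₕ chartAt E x) (p x)) := by
    refine contMDiffAt_symm_of_mem_maximalAtlas (IsManifold.chart_mem_maximalAtlas x) ?_
    rw [OpenPartialHomeomorph.coe_trans, Function.comp_apply, hp.localInverseAt_apply_self]
    exact (chartAt E x).map_source (mem_chart_source _ _)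
  refine (s2.comp (p x) s1).congr_of_eventuallyEq ?_
  filter_upwards [(hp.localInverseAt x ≫ₕ chartAt E x).open_source.mem_nhds hx2] with y hy
  rw [OpenPartialHomeomorph.trans_source] at hy
  simp only [Function.comp_apply, OpenPartialHomeomorph.coe_trans]
  rw [(chartAt E x).left_inv hy.2]

end Run7.h611
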