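import Pool.Agent.Run7.h611.CoverSym

/-! The product of three 3-spheres (unit quaternions), its quotients by groups of signs. -/

open scoped Manifold ContDiff Bundle Quaternion Topology
open Metric Set

noncomputable section
namespace Run7.h611

instance finrankH : Fact (Module.finrank ℝ ℍ[ℝ] = 3 + 1) := ⟨by rw [Quaternion.finrank_eq_four]⟩

/-- the unit quaternions -/
abbrev S3 := sphere (0 : ℍ[ℝ]) 1
/-- the product of three copies of the 3-sphere -/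
abbrev X3 := S3 × S3 × S3
/-- Euclidean 3-space -/
abbrev E3 := EuclideanSpace ℝ (Fin 3)
/-- the model space of `X3` -/
abbrev EE := E3 × E3 × E3
/-- the ambient space of `X3` -/
abbrev VV := ℍ[ℝ] × ℍ[ℝ] × ℍ[ℝ]

instance chX : ChartedSpace EE X3 := prodChartedSpace E3 S3 (ModelProd E3 E3) (S3 × S3)

theorem model_eq : 𝓘(ℝ, EE) = (𝓘(ℝ, E3).prod (𝓘(ℝ, E3).prod 𝓘(ℝ, E3))) := by
  rw [modelWithCornersSelf_prod, modelWithCornersSelf_prod]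

instance manX : IsManifold 𝓘(ℝ, EE) ∞ X3 := by
  rw [model_eq]
  exact IsManifold.prod (n := ∞) (I := 𝓘(ℝ, E3)) (I' := 𝓘(ℝ, E3).prod 𝓘(ℝ, E3)) S3 (S3 × S3)

/-- the inclusion of `X3` in the ambient space -/
def iota (x : X3) : VV := (x.1, x.2.1, x.2.2)

theorem contMDiff_iota1 : ContMDiff 𝓘(ℝ, EE) 𝓘(ℝ, ℍ[ℝ]) ∞ (fun x : X3 => (x.1 : ℍ[ℝ])) := by
  rw [model_eq]
  exact contMDiff_coe_sphere.comp contMDiff_fst

theorem contMDiff_iota2 : ContMDiff 𝓘(ℝ, EE) 𝓘(ℝ, ℍ[ℝ]) ∞ (fun x : X3 => (x.2.1 : ℍ[ℝ])) := by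
  rw [model_eq]
  exact contMDiff_coe_sphere.comp (contMDiff_fst.comp contMDiff_snd)

theorem contMDiff_iota3 : ContMDiff 𝓘(ℝ, EE) 𝓘(ℝ, ℍ[ℝ]) ∞ (fun x : X3 => (x.2.2 : ℍ[ℝ])) := by
  rw [model_eq]
  exact contMDiff_coe_sphere.comp (contMDiff_snd.comp contMDiff_snd)

theorem contMDiff_iota : ContMDiff 𝓘(ℝ, EE) 𝓘(ℝ, VV) ∞ iota :=
  contMDiff_iota1.prodMk_space (contMDiff_iota2.prodMk_space contMDiff_iota3)

/-- derivative of the inclusion, componentwise -/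
theorem mfderiv_iota_apply (x : X3) (v : EE) :
    (mfderiv 𝓘(ℝ, EE) 𝓘(ℝ, VV) iota x : EE →L[ℝ] VV) v =
      ((mfderiv (𝓡 3) 𝓘(ℝ, ℍ[ℝ]) ((↑) : S3 → ℍ[ℝ]) x.1 : E3 →L[ℝ] ℍ[ℝ]) v.1,
       (mfderiv (𝓡 3) 𝓘(ℝ, ℍ[ℝ]) ((↑) : S3 → ℍ[ℝ]) x.2.1 : E3 →L[ℝ] ℍ[ℝ]) v.2.1,
       (mfderiv (𝓡 3) 𝓘(ℝ, ℍ[ℝ]) ((↑) : S3 → ℍ[ℝ]) x.2.2 : E3 →L[ℝ] ℍ[ℝ]) v.2.2) := by
  have hS : ∀ z : S3, HasMFDerivAt (𝓡 3) 𝓘(ℝ, ℍ[ℝ]) ((↑) : S3 → ℍ[ℝ]) z
      (mfderiv (𝓡 3) 𝓘(ℝ, ℍ[ℝ]) ((↑) : S3 → ℍ[ℝ]) z) := fun z =>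
    ((contMDiff_coe_sphere (m := 1) z).mdifferentiableAt (by simp)).hasMFDerivAt
  have h1 : HasMFDerivAt (𝓘(ℝ, E3).prod (𝓘(ℝ, E3).prod 𝓘(ℝ, E3))) 𝓘(ℝ, ℍ[ℝ])
      (fun x : X3 => (x.1 : ℍ[ℝ])) x _ := (hS x.1).comp x (hasMFDerivAt_fst _)
  have h2 : HasMFDerivAt (𝓘(ℝ, E3).prod (𝓘(ℝ, E3).prod 𝓘(ℝ, E3))) 𝓘(ℝ, ℍ[ℝ])
      (fun x : X3 => (x.2.1 : ℍ[ℝ])) x _ :=
    (hS x.2.1).comp x ((hasMFDerivAt_fst x.2).comp x (hasMFDerivAt_snd x))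
  have h3 : HasMFDerivAt (𝓘(ℝ, E3).prod (𝓘(ℝ, E3).prod 𝓘(ℝ, E3))) 𝓘(ℝ, ℍ[ℝ])
      (fun x : X3 => (x.2.2 : ℍ[ℝ])) x _ :=
    (hS x.2.2).comp x ((hasMFDerivAt_snd x.2).comp x (hasMFDerivAt_snd x))
  have hD : HasMFDerivAt 𝓘(ℝ, EE) 𝓘(ℝ, VV) iota x (mfderiv 𝓘(ℝ, EE) 𝓘(ℝ, VV) iota x) :=
    ((contMDiff_iota x).mdifferentiableAt (by simp)).hasMFDerivAt
  have k1 := hasMFDerivAt_unique (f := fun x : X3 => (x.1 : ℍ[ℝ]))
    ((ContinuousLinearMap.fst ℝ ℍ[ℝ] (ℍ[ℝ] × ℍ[ℝ])).hasMFDerivAt.comp x hD)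
    (by rw [model_eq]; exact h1)
  have k2 := hasMFDerivAt_unique (f := fun x : X3 => (x.2.1 : ℍ[ℝ]))
    (((ContinuousLinearMap.fst ℝ ℍ[ℝ] ℍ[ℝ]).comp
      (ContinuousLinearMap.snd ℝ ℍ[ℝ] (ℍ[ℝ] × ℍ[ℝ]))).hasMFDerivAt.comp x hD)
    (by rw [model_eq]; exact h2)
  have k3 := hasMFDerivAt_unique (f := fun x : X3 => (x.2.2 : ℍ[ℝ]))
    (((ContinuousLinearMap.snd ℝ ℍ[ℝ] ℍ[ℝ]).comp
      (ContinuousLinearMap.snd ℝ ℍ[ℝ] (ℍ[ℝ] × ℍ[ℝ]))).hasMFDerivAt.comp x hD)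
    (by rw [model_eq]; exact h3)
  have l1 := congrArg (fun T => T v) k1
  have l2 := congrArg (fun T => T v) k2
  have l3 := congrArg (fun T => T v) k3
  exact Prod.ext l1 (Prod.ext l2 l3)

theorem iota_injective (x : X3) :
    Function.Injective (mfderiv 𝓘(ℝ, EE) 𝓘(ℝ, VV) iota x) := by
  intro u v huv
  have h1 := mfderiv_iota_apply x u
  have h2 := mfderiv_iota_apply x v
  have h : (_ : VV) = _ := h1.symm.trans (Eq.trans huv h2)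
  have hi : ∀ z : S3, Function.Injective
      (mfderiv (𝓡 3) 𝓘(ℝ, ℍ[ℝ]) ((↑) : S3 → ℍ[ℝ]) z) := fun z => by
    convert! injective_mvfderiv_subtypeVal_sphere z
  have a1 : u.1 = v.1 := hi x.1 (congrArg Prod.fst h)
  have a2 : u.2.1 = v.2.1 := hi x.2.1 (congrArg (fun p : VV => p.2.1) h)
  have a3 : u.2.2 = v.2.2 := hi x.2.2 (congrArg (fun p : VV => p.2.2) h)
  exact Prod.ext a1 (Prod.ext a2 a3)

theorem sphere_deriv_orth (z : S3) (u : E3) :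
    inner ℝ (z : ℍ[ℝ]) ((mfderiv (𝓡 3) 𝓘(ℝ, ℍ[ℝ]) ((↑) : S3 → ℍ[ℝ]) z : E3 →L[ℝ] ℍ[ℝ]) u) = 0 := by
  have h := range_mvfderiv_subtypeVal (n := 3) z
  have h2 : (mvfderiv (𝓡 3) ((↑) : S3 → ℍ[ℝ]) z) u ∈ (ℝ ∙ (z : ℍ[ℝ]))ᗮ := by
    rw [← h]; exact ⟨u, rfl⟩
  exact (Submodule.mem_orthogonal_singleton_iff_inner_right.1 h2)

/-- the sum of the three Euclidean inner products -/
def BB : VV →L[ℝ] VV →L[ℝ] ℝ :=
  (innerSL ℝ (E := ℍ[ℝ])).bilinearComp (ContinuousLinearMap.fst ℝ ℍ[ℝ] (ℍ[ℝ] × ℍ[ℝ]))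
      (ContinuousLinearMap.fst ℝ ℍ[ℝ] (ℍ[ℝ] × ℍ[ℝ])) +
  (innerSL ℝ (E := ℍ[ℝ])).bilinearComp
      ((ContinuousLinearMap.fst ℝ ℍ[ℝ] ℍ[ℝ]).comp (ContinuousLinearMap.snd ℝ ℍ[ℝ] (ℍ[ℝ] × ℍ[ℝ])))
      ((ContinuousLinearMap.fst ℝ ℍ[ℝ] ℍ[ℝ]).comp (ContinuousLinearMap.snd ℝ ℍ[ℝ] (ℍ[ℝ] × ℍ[ℝ]))) +
  (innerSL ℝ (E := ℍ[ℝ])).bilinearComp
      ((ContinuousLinearMap.snd ℝ ℍ[ℝ] ℍ[ℝ]).comp (ContinuousLinearMap.snd ℝ ℍ[ℝ] (ℍ[ℝ] × ℍ[ℝ])))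
      ((ContinuousLinearMap.snd ℝ ℍ[ℝ] ℍ[ℝ]).comp (ContinuousLinearMap.snd ℝ ℍ[ℝ] (ℍ[ℝ] × ℍ[ℝ])))

theorem BB_apply (u v : VV) :
    BB u v = inner ℝ u.1 v.1 + inner ℝ u.2.1 v.2.1 + inner ℝ u.2.2 v.2.2 := rfl

theorem BB_symm (u v : VV) : BB u v = BB v u := by
  rw [BB_apply, BB_apply, real_inner_comm, real_inner_comm u.2.1, real_inner_comm u.2.2]

theorem BB_pos (u : VV) (hu : u ≠ 0) : 0 < BB u u := by
  rw [BB_apply]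
  have h1 := real_inner_self_nonneg (x := u.1)
  have h2 := real_inner_self_nonneg (x := u.2.1)
  have h3 := real_inner_self_nonneg (x := u.2.2)
  by_contra hcon
  apply hu
  have e1 : inner ℝ u.1 u.1 = 0 := by linarith
  have e2 : inner ℝ u.2.1 u.2.1 = 0 := by linarith
  have e3 : inner ℝ u.2.2 u.2.2 = 0 := by linarith
  rw [inner_self_eq_zero] at e1 e2 e3
  exact Prod.ext e1 (Prod.ext e2 e3)

/-- `v ↦ 2⟨x,v⟩x - v` -/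
def refl1 (x : ℍ[ℝ]) : ℍ[ℝ] →L[ℝ] ℍ[ℝ] :=
  (2 : ℝ) • ((innerSL ℝ x).smulRight x) - ContinuousLinearMap.id ℝ ℍ[ℝ]

theorem refl1_apply (x v : ℍ[ℝ]) : refl1 x v = (2 : ℝ) • (inner ℝ x v • x) - v := rfl

theorem refl1_inner (x : S3) (u v : ℍ[ℝ]) :
    inner ℝ (refl1 x u) (refl1 x v) = inner ℝ u v := by
  have hx : inner ℝ (x : ℍ[ℝ]) (x : ℍ[ℝ]) = 1 := by
    rw [real_inner_self_eq_norm_sq, norm_eq_of_mem_sphere x]; norm_num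
  rw [refl1_apply, refl1_apply]
  simp only [inner_sub_left, inner_sub_right, inner_smul_left, inner_smul_right, hx]
  rw [real_inner_comm (x : ℍ[ℝ]) u]
  simp
  ring

theorem refl1_coe (x y : S3) : refl1 (x : ℍ[ℝ]) (y : ℍ[ℝ]) = ((x * y⁻¹ * x : S3) : ℍ[ℝ]) := by
  have hy : (y : ℍ[ℝ])⁻¹ = star (y : ℍ[ℝ]) := by
    rw [Quaternion.inv_def, Quaternion.normSq_eq_norm_mul_self, norm_eq_of_mem_sphere y]
    simp
  have hx : star (x : ℍ[ℝ]) * (x : ℍ[ℝ]) = 1 := by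
    rw [Quaternion.star_mul_self, Quaternion.normSq_eq_norm_mul_self, norm_eq_of_mem_sphere x]
    simp
  have h1 : (x : ℍ[ℝ]) * star (y : ℍ[ℝ]) + (y : ℍ[ℝ]) * star (x : ℍ[ℝ]) =
      ((2 * inner ℝ (x : ℍ[ℝ]) (y : ℍ[ℝ]) : ℝ) : ℍ[ℝ]) := by
    have := Quaternion.self_add_star' ((x : ℍ[ℝ]) * star (y : ℍ[ℝ]))
    rw [star_mul, star_star] at this
    rw [this, Quaternion.inner_def]
  have h2 : (x : ℍ[ℝ]) * star (y : ℍ[ℝ]) * x =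
      ((2 * inner ℝ (x : ℍ[ℝ]) (y : ℍ[ℝ]) : ℝ) : ℍ[ℝ]) * x - y := by
    rw [← h1, add_mul, mul_assoc (y : ℍ[ℝ]), hx, mul_one, add_sub_cancel_right]
  rw [refl1_apply]
  push_cast
  rw [hy, h2, Quaternion.coe_mul_eq_smul, smul_smul]

/-- the linear reflection of the ambient space attached to a point of `X3` -/
def LL (x : X3) : VV →L[ℝ] VV :=
  (refl1 (x.1 : ℍ[ℝ])).prodMap ((refl1 (x.2.1 : ℍ[ℝ])).prodMap (refl1 (x.2.2 : ℍ[ℝ])))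

theorem LL_apply (x : X3) (v : VV) :
    LL x v = (refl1 (x.1 : ℍ[ℝ]) v.1, refl1 (x.2.1 : ℍ[ℝ]) v.2.1, refl1 (x.2.2 : ℍ[ℝ]) v.2.2) := rfl

/-- the geodesic symmetry of `X3` at `x` -/
def sig (x y : X3) : X3 := x * y⁻¹ * x

theorem iota_sig (x y : X3) : iota (sig x y) = LL x (iota y) := by
  rw [LL_apply]
  exact Prod.ext (refl1_coe x.1 y.1).symm
    (Prod.ext (refl1_coe x.2.1 y.2.1).symm (refl1_coe x.2.2 y.2.2).symm)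

theorem LL_BB (x : X3) (u v : VV) : BB (LL x u) (LL x v) = BB u v := by
  rw [BB_apply, BB_apply, LL_apply, LL_apply]
  simp only [refl1_inner]

theorem smooth_refl (z : S3) : ContMDiff (𝓡 3) (𝓡 3) ∞ (fun w : S3 => z * w⁻¹ * z) := by
  have h1 : ContMDiff (𝓡 3) 𝓘(ℝ, ℍ[ℝ]) ∞ (fun w : S3 => refl1 (z : ℍ[ℝ]) (w : ℍ[ℝ])) :=
    (refl1 (z : ℍ[ℝ])).contMDiff.comp contMDiff_coe_sphere
  have h2 := h1.codRestrict_sphere (n := 3) (fun w => by rw [refl1_coe]; exact (z * w⁻¹ * z).2)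
  convert! h2 using 1
  funext w
  apply Subtype.ext
  exact (refl1_coe z w).symm

theorem smooth_prod3 {f g h : S3 → S3} (hf : ContMDiff (𝓡 3) (𝓡 3) ∞ f)
    (hg : ContMDiff (𝓡 3) (𝓡 3) ∞ g) (hh : ContMDiff (𝓡 3) (𝓡 3) ∞ h) :
    ContMDiff 𝓘(ℝ, EE) 𝓘(ℝ, EE) ∞ (fun x : X3 => ((f x.1, g x.2.1, h x.2.2) : X3)) := by
  rw [model_eq]
  exact (hf.comp contMDiff_fst).prodMk
    ((hg.comp (contMDiff_fst.comp contMDiff_snd)).prodMk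
      (hh.comp (contMDiff_snd.comp contMDiff_snd)))

theorem smooth_sig (x : X3) : ContMDiff 𝓘(ℝ, EE) 𝓘(ℝ, EE) ∞ (sig x) :=
  smooth_prod3 (smooth_refl x.1) (smooth_refl x.2.1) (smooth_refl x.2.2)

theorem LL_neg (x : X3) (u : EE) :
    LL x ((mfderiv 𝓘(ℝ, EE) 𝓘(ℝ, VV) iota x : EE →L[ℝ] VV) u) =
      - (mfderiv 𝓘(ℝ, EE) 𝓘(ℝ, VV) iota x : EE →L[ℝ] VV) u := by
  rw [mfderiv_iota_apply, LL_apply]
  have key : ∀ (z : S3) (w : E3),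
      refl1 (z : ℍ[ℝ]) ((mfderiv (𝓡 3) 𝓘(ℝ, ℍ[ℝ]) ((↑) : S3 → ℍ[ℝ]) z : E3 →L[ℝ] ℍ[ℝ]) w) =
      - (mfderiv (𝓡 3) 𝓘(ℝ, ℍ[ℝ]) ((↑) : S3 → ℍ[ℝ]) z : E3 →L[ℝ] ℍ[ℝ]) w := by
    intro z w
    rw [refl1_apply, sphere_deriv_orth, zero_smul, smul_zero, zero_sub]
    rfl
  simp only [key]
  rfl

/-! ### groups of signs -/

/-- all the entries of the elements of `C` are `±1` -/
class SignSub (C : Subgroup X3) : Prop where
  sign : ∀ c ∈ C, (c.1 = 1 ∨ c.1 = -1) ∧ (c.2.1 = 1 ∨ c.2.1 = -1) ∧ (c.2.2 = 1 ∨ c.2.2 = -1)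

theorem sign_lin {c : S3} (hc : c = 1 ∨ c = -1) :
    ∃ ε : ℝ, ε * ε = 1 ∧ (∀ y : S3, ((y * c : S3) : ℍ[ℝ]) = ε • (y : ℍ[ℝ])) ∧
      ContMDiff (𝓡 3) (𝓡 3) ∞ (fun y : S3 => y * c) := by
  rcases hc with rfl | rfl
  · refine ⟨1, by norm_num, fun y => by simp, ?_⟩
    have h : (fun y : S3 => y * 1) = id := by funext y; rw [mul_one]; rfl
    rw [h]
    exact contMDiff_id
  · refine ⟨-1, by norm_num, fun y => by simp, ?_⟩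
    have h : (fun y : S3 => y * (-1)) = fun y : S3 => -y := by
      funext y; apply Subtype.ext; simp
    rw [h]
    exact contMDiff_neg_sphere

theorem sign_comm {c : S3} (hc : c = 1 ∨ c = -1) (y : S3) : y * c = c * y := by
  rcases hc with rfl | rfl
  · rw [mul_one, one_mul]
  · apply Subtype.ext; simp

section
variable (C : Subgroup X3) [hC : SignSub C]

instance signNormal : C.Normal where
  conj_mem c hc g := by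
    obtain ⟨h1, h2, h3⟩ := hC.sign c hc
    have : g * c * g⁻¹ = c := by
      rw [mul_inv_eq_iff_eq_mul]
      exact Prod.ext (sign_comm h1 _) (Prod.ext (sign_comm h2 _) (sign_comm h3 _))
    rw [this]; exact hc

theorem sign_finite : (C : Set X3).Finite := by
  have h : (C : Set X3) ⊆ ({1, -1} : Set S3) ×ˢ (({1, -1} : Set S3) ×ˢ ({1, -1} : Set S3)) := by
    intro c hc
    obtain ⟨h1, h2, h3⟩ := hC.sign c hc
    exact ⟨by simpa using h1, by simpa using h2, by simpa using h3⟩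
  exact Set.Finite.subset ((Set.toFinite _).prod ((Set.toFinite _).prod (Set.toFinite _))) h

instance signClosed : IsClosed (C : Set X3) := (sign_finite C).isClosed

theorem proj_localHomeo : IsLocalHomeomorph (QuotientGroup.mk : X3 → X3 ⧸ C) :=
  (C.isQuotientCoveringMap (sign_finite C).isDiscrete).isCoveringMap.isLocalHomeomorph

omit hC in
theorem proj_surj : Function.Surjective (QuotientGroup.mk : X3 → X3 ⧸ C) :=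
  QuotientGroup.mk_surjective

theorem deck_exists (x x' : X3) (h : (QuotientGroup.mk x : X3 ⧸ C) = QuotientGroup.mk x') :
    ∃ (γ : X3 → X3) (L : VV →L[ℝ] VV),
    ContMDiff 𝓘(ℝ, EE) 𝓘(ℝ, EE) ∞ γ ∧ γ x = x' ∧
     (∀ y, (QuotientGroup.mk (γ y) : X3 ⧸ C) = QuotientGroup.mk y) ∧
     (∀ y, iota (γ y) = L (iota y)) ∧ ∀ u v, BB (L u) (L v) = BB u v := by
  rw [QuotientGroup.eq] at h
  set c := x⁻¹ * x' with hc
  obtain ⟨h1, h2, h3⟩ := hC.sign c h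
  obtain ⟨ε₁, e1, l1, s1⟩ := sign_lin h1
  obtain ⟨ε₂, e2, l2, s2⟩ := sign_lin h2
  obtain ⟨ε₃, e3, l3, s3⟩ := sign_lin h3
  refine ⟨fun y => y * c, (ε₁ • ContinuousLinearMap.id ℝ ℍ[ℝ]).prodMap
    ((ε₂ • ContinuousLinearMap.id ℝ ℍ[ℝ]).prodMap (ε₃ • ContinuousLinearMap.id ℝ ℍ[ℝ])),
    smooth_prod3 s1 s2 s3, by simp [hc], fun y => ?_, fun y => ?_, fun u v => ?_⟩
  · rw [eq_comm, QuotientGroup.eq]; simpa using h
  · exact Prod.ext (l1 y.1) (Prod.ext (l2 y.2.1) (l3 y.2.2))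
  · rw [BB_apply, BB_apply]
    change inner ℝ (ε₁ • u.1) (ε₁ • v.1) + inner ℝ (ε₂ • u.2.1) (ε₂ • v.2.1) +
      inner ℝ (ε₃ • u.2.2) (ε₃ • v.2.2) = _
    simp only [inner_smul_left, inner_smul_right, conj_trivial, ← mul_assoc, e1, e2, e3, one_mul]

theorem smoothDeck : SmoothDeck EE (QuotientGroup.mk : X3 → X3 ⧸ C) := by
  intro x x' h
  obtain ⟨γ, _, h1, h2, h3, _⟩ := deck_exists C x x' h
  exact ⟨γ, h1, h2, h3⟩

instance quotCh : ChartedSpace EE (X3 ⧸ C) := quotCharted (proj_localHomeo C) (proj_surj C)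

instance quotMan : IsManifold 𝓘(ℝ, EE) ∞ (X3 ⧸ C) :=
  quotIsManifold (proj_localHomeo C) (proj_surj C) (smoothDeck C)

/-- the covering data of the quotient -/
def coverData : CoverData EE VV X3 (X3 ⧸ C) where
  p := QuotientGroup.mk
  hp := proj_localHomeo C
  hs := proj_surj C
  smooth_p := contMDiff_proj (proj_localHomeo C) (proj_surj C) (smoothDeck C)
  smooth_inv := contMDiffAt_localInverse (proj_localHomeo C) (proj_surj C) (smoothDeck C)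
  ι := iota
  hι := contMDiff_iota
  hinj := iota_injective
  B := BB
  Bsymm := BB_symm
  Bpos := BB_pos
  deck := deck_exists C
  σ := sig
  Lσ := LL
  hσ := smooth_sig
  σι := iota_sig
  σB := LL_BB
  σσ x y := by unfold sig; group
  σfix x := by unfold sig; group
  σneg := LL_neg
  s q r := q * r⁻¹ * q
  sp x y := rfl

/-- The quotient `X3 ⧸ C` as a Riemannian symmetric space. -/
def symQuot : RiemannianSymmetricSpace EE (X3 ⧸ C) := (coverData C).toSymmetricSpace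

theorem symQuot_apply (q r : X3 ⧸ C) : (symQuot C).sym q r = q * r⁻¹ * q := rfl

instance : ConnectedSpace S3 := by
  rw [← isConnected_iff_connectedSpace]
  apply isConnected_sphere _ _ zero_le_one
  rw [← Module.finrank_eq_rank, Quaternion.finrank_eq_four]
  norm_num

end

end Run7.h611
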