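import Pool.Agent.Run7.h611.SphereCover

/-! Two quotients of `S³ × S³ × S³` which are homeomorphic but have different two-numbers. -/

open scoped Manifold ContDiff Bundle Quaternion Topology
open Metric Set

noncomputable section
namespace Run7.h611

section
variable (C : Subgroup X3) [hC : SignSub C]

instance : T2Space (X3 ⧸ C) := inferInstance
instance : CompactSpace (X3 ⧸ C) := inferInstance
instance : ConnectedSpace (X3 ⧸ C) :=
  (proj_surj C).connectedSpace QuotientGroup.continuous_mk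
end

theorem neg_one_mul_neg_one' : (-1 : S3) * (-1) = 1 := by
  apply Subtype.ext; simp

theorem neg_one_inv' : (-1 : S3)⁻¹ = -1 := by
  rw [inv_eq_iff_mul_eq_one, neg_one_mul_neg_one']

theorem sgn_mul {a b : S3} (ha : a = 1 ∨ a = -1) (hb : b = 1 ∨ b = -1) :
    a * b = 1 ∨ a * b = -1 := by
  rcases ha with rfl | rfl <;> rcases hb with rfl | rfl
  · left; rw [mul_one]
  · right; rw [one_mul]
  · right; rw [mul_one]
  · left; exact neg_one_mul_neg_one'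

theorem sgn_inv {a : S3} (ha : a = 1 ∨ a = -1) : a⁻¹ = a := by
  rcases ha with rfl | rfl
  · exact inv_one
  · exact neg_one_inv'

theorem sgn_sq {a : S3} (ha : a = 1 ∨ a = -1) : a * a = 1 := by
  rcases ha with rfl | rfl
  · exact mul_one 1
  · exact neg_one_mul_neg_one'

/-- the group of the sign triples `(±1, ±1, 1)` -/
def C1 : Subgroup X3 where
  carrier := {c | (c.1 = 1 ∨ c.1 = -1) ∧ (c.2.1 = 1 ∨ c.2.1 = -1) ∧ c.2.2 = 1}
  one_mem' := ⟨Or.inl rfl, Or.inl rfl, rfl⟩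
  mul_mem' := by
    rintro a b ⟨a1, a2, a3⟩ ⟨b1, b2, b3⟩
    exact ⟨sgn_mul a1 b1, sgn_mul a2 b2, by
      change a.2.2 * b.2.2 = 1; rw [a3, b3, mul_one]⟩
  inv_mem' := by
    rintro a ⟨a1, a2, a3⟩
    refine ⟨?_, ?_, ?_⟩
    · change a.1⁻¹ = 1 ∨ a.1⁻¹ = -1; rwa [sgn_inv a1]
    · change a.2.1⁻¹ = 1 ∨ a.2.1⁻¹ = -1; rwa [sgn_inv a2]
    · change a.2.2⁻¹ = 1; rw [a3, inv_one]

/-- the group of the sign triples with product `1` -/
def C2 : Subgroup X3 where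
  carrier := {c | (c.1 = 1 ∨ c.1 = -1) ∧ (c.2.1 = 1 ∨ c.2.1 = -1) ∧ c.2.2 = c.1 * c.2.1}
  one_mem' := ⟨Or.inl rfl, Or.inl rfl, (mul_one (1 : S3)).symm⟩
  mul_mem' := by
    rintro a b ⟨a1, a2, a3⟩ ⟨b1, b2, b3⟩
    refine ⟨sgn_mul a1 b1, sgn_mul a2 b2, ?_⟩
    change a.2.2 * b.2.2 = a.1 * b.1 * (a.2.1 * b.2.1)
    rw [a3, b3, mul_assoc a.1, ← mul_assoc a.2.1, ← sign_comm a2 b.1, mul_assoc, ← mul_assoc b.1,
      ← mul_assoc]
    simp only [mul_assoc]
  inv_mem' := by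
    rintro a ⟨a1, a2, a3⟩
    refine ⟨?_, ?_, ?_⟩
    · change a.1⁻¹ = 1 ∨ a.1⁻¹ = -1; rwa [sgn_inv a1]
    · change a.2.1⁻¹ = 1 ∨ a.2.1⁻¹ = -1; rwa [sgn_inv a2]
    · change a.2.2⁻¹ = a.1⁻¹ * a.2.1⁻¹
      rw [a3, mul_inv_rev, sgn_inv a1, sgn_inv a2, sign_comm a1]

instance : SignSub C1 := ⟨fun _ ⟨h1, h2, h3⟩ => ⟨h1, h2, Or.inl h3⟩⟩
instance : SignSub C2 := ⟨fun c ⟨h1, h2, h3⟩ => ⟨h1, h2, by rw [h3]; exact sgn_mul h1 h2⟩⟩

/-- the homeomorphism `(x, y, z) ↦ (x, y, xyz)` -/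
def Phi : X3 ≃ₜ X3 where
  toFun x := (x.1, x.2.1, x.1 * x.2.1 * x.2.2)
  invFun x := (x.1, x.2.1, (x.1 * x.2.1)⁻¹ * x.2.2)
  left_inv x := Prod.ext rfl (Prod.ext rfl (inv_mul_cancel_left (x.1 * x.2.1) x.2.2))
  right_inv x := Prod.ext rfl (Prod.ext rfl (mul_inv_cancel_left (x.1 * x.2.1) x.2.2))
  continuous_toFun := by fun_prop
  continuous_invFun := by fun_prop

theorem sign_key {α β : S3} (hα : α = 1 ∨ α = -1) (hβ : β = 1 ∨ β = -1) (x y z z' : S3) :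
    (x * y * z)⁻¹ * ((x * α) * (y * β) * z') = (α * β) * (z⁻¹ * z') := by
  have h1 : (x * α) * (y * β) = (x * y) * (α * β) := by
    rw [mul_assoc x α, ← mul_assoc α y, ← sign_comm hα y, mul_assoc y α, ← mul_assoc x y]
  have h2 : z⁻¹ * (α * β) = (α * β) * z⁻¹ := sign_comm (sgn_mul hα hβ) _
  rw [h1, mul_inv_rev, mul_assoc (x * y), mul_assoc z⁻¹, inv_mul_cancel_left, ← mul_assoc, h2,
    mul_assoc]

theorem Phi_rel (x x' : X3) : x⁻¹ * x' ∈ C2 ↔ (Phi x)⁻¹ * Phi x' ∈ C1 := by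
  change ((x.1⁻¹ * x'.1 = 1 ∨ x.1⁻¹ * x'.1 = -1) ∧ (x.2.1⁻¹ * x'.2.1 = 1 ∨ x.2.1⁻¹ * x'.2.1 = -1) ∧
      x.2.2⁻¹ * x'.2.2 = (x.1⁻¹ * x'.1) * (x.2.1⁻¹ * x'.2.1)) ↔
    ((x.1⁻¹ * x'.1 = 1 ∨ x.1⁻¹ * x'.1 = -1) ∧ (x.2.1⁻¹ * x'.2.1 = 1 ∨ x.2.1⁻¹ * x'.2.1 = -1) ∧
      (x.1 * x.2.1 * x.2.2)⁻¹ * (x'.1 * x'.2.1 * x'.2.2) = 1)
  refine and_congr_right fun h1 => and_congr_right fun h2 => ?_
  have e := sign_key h1 h2 x.1 x.2.1 x.2.2 x'.2.2
  rw [mul_inv_cancel_left, mul_inv_cancel_left] at e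
  rw [e]
  have hs := sgn_mul h1 h2
  constructor
  · intro h; rw [h, sgn_sq hs]
  · intro h
    exact (inv_eq_of_mul_eq_one_right h).symm.trans (sgn_inv hs)

/-- The quotients of `X3` by `C2` and by `C1` are homeomorphic. -/
def quotHomeo : (X3 ⧸ C2) ≃ₜ (X3 ⧸ C1) where
  toFun := Quotient.lift (fun x : X3 => (QuotientGroup.mk (Phi x) : X3 ⧸ C1)) (fun a b h => by
    rw [QuotientGroup.eq]
    exact (Phi_rel a b).1 (QuotientGroup.leftRel_apply.1 h))
  invFun := Quotient.lift (fun x : X3 => (QuotientGroup.mk (Phi.symm x) : X3 ⧸ C2)) (fun a b h => by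
    rw [QuotientGroup.eq, Phi_rel, Phi.apply_symm_apply, Phi.apply_symm_apply]
    exact QuotientGroup.leftRel_apply.1 h)
  left_inv q := by
    obtain ⟨x, rfl⟩ := proj_surj C2 q
    change (QuotientGroup.mk (Phi.symm (Phi x)) : X3 ⧸ C2) = _
    rw [Phi.symm_apply_apply]
  right_inv q := by
    obtain ⟨x, rfl⟩ := proj_surj C1 q
    change (QuotientGroup.mk (Phi (Phi.symm x)) : X3 ⧸ C1) = _
    rw [Phi.apply_symm_apply]
  continuous_toFun := (QuotientGroup.continuous_mk.comp Phi.continuous).quotient_lift _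
  continuous_invFun := (QuotientGroup.continuous_mk.comp Phi.symm.continuous).quotient_lift _

/-! ### reflections and inner products -/

theorem inner_self_S3 (x : S3) : inner ℝ (x : ℍ[ℝ]) (x : ℍ[ℝ]) = 1 := by
  rw [real_inner_self_eq_norm_sq, norm_eq_of_mem_sphere x]; norm_num

theorem refl_eq_self_iff (x y : S3) (h : x * y⁻¹ * x = y) : y = x ∨ y = -x := by
  have h1 : refl1 (x : ℍ[ℝ]) (y : ℍ[ℝ]) = (y : ℍ[ℝ]) := by rw [refl1_coe, h]
  rw [refl1_apply] at h1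
  have h2 : (inner ℝ (x : ℍ[ℝ]) (y : ℍ[ℝ])) • (x : ℍ[ℝ]) = (y : ℍ[ℝ]) := by
    have h3 : (2 : ℝ) • (inner ℝ (x : ℍ[ℝ]) (y : ℍ[ℝ]) • (x : ℍ[ℝ])) = (2 : ℝ) • (y : ℍ[ℝ]) := by
      rw [sub_eq_iff_eq_add] at h1
      rw [h1, two_smul]
    exact smul_right_injective _ (two_ne_zero) h3
  set c := inner ℝ (x : ℍ[ℝ]) (y : ℍ[ℝ]) with hc
  have h4 : c * c = 1 := by
    have := congrArg (fun v => inner ℝ (x : ℍ[ℝ]) v) h2
    have h5 := inner_self_S3 y
    rw [← h2, inner_smul_left, inner_smul_right, inner_self_S3] at h5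
    simpa using h5
  rcases mul_self_eq_one_iff.1 h4 with h | h
  · left; apply Subtype.ext; rw [← h2, h, one_smul]
  · right; apply Subtype.ext; rw [← h2, h]; simp

theorem refl_eq_neg_iff (x y : S3) : x * y⁻¹ * x = -y ↔ inner ℝ (x : ℍ[ℝ]) (y : ℍ[ℝ]) = 0 := by
  constructor
  · intro h
    have h1 : refl1 (x : ℍ[ℝ]) (y : ℍ[ℝ]) = -(y : ℍ[ℝ]) := by rw [refl1_coe, h]; simp
    rw [refl1_apply] at h1
    have h2 : (2 : ℝ) • (inner ℝ (x : ℍ[ℝ]) (y : ℍ[ℝ]) • (x : ℍ[ℝ])) = 0 := by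
      have := congrArg (fun v => v + (y : ℍ[ℝ])) h1
      simpa using this
    rw [smul_smul, smul_eq_zero] at h2
    rcases h2 with h2 | h2
    · linarith
    · exact absurd h2 (ne_zero_of_mem_unit_sphere x)
  · intro h
    apply Subtype.ext
    rw [← refl1_coe, refl1_apply, h]
    simp

/-! ### a large antipodal set for `C1` -/

/-- an orthonormal basis of the quaternions -/
def ob : OrthonormalBasis (Fin 4) ℝ ℍ[ℝ] :=
  (stdOrthonormalBasis ℝ ℍ[ℝ]).reindex (finCongr Quaternion.finrank_eq_four)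

/-- the corresponding points of the sphere -/
def ub (m : Fin 4) : S3 := ⟨ob m, by rw [mem_sphere_zero_iff_norm]; exact ob.norm_eq_one m⟩

theorem ub_inner (m n : Fin 4) :
    inner ℝ (ub m : ℍ[ℝ]) (ub n : ℍ[ℝ]) = if m = n then (1 : ℝ) else 0 :=
  orthonormal_iff_ite.1 ob.orthonormal m n

theorem ub_refl (m n : Fin 4) : (ub m * (ub n)⁻¹ * ub m)⁻¹ * ub n = 1 ∨
    (ub m * (ub n)⁻¹ * ub m)⁻¹ * ub n = -1 := by
  by_cases h : m = n
  · left; subst h; group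
  · right
    have h1 : ub m * (ub n)⁻¹ * ub m = -ub n := by
      rw [refl_eq_neg_iff, ub_inner, if_neg h]
    rw [h1]
    have h2 : (-ub n) = ub n * (-1) := by apply Subtype.ext; simp
    rw [h2, mul_inv_rev, neg_one_inv', mul_assoc, inv_mul_cancel, mul_one]

theorem ub_rel {m n : Fin 4} (h : (ub m)⁻¹ * ub n = 1 ∨ (ub m)⁻¹ * ub n = -1) : m = n := by
  by_contra hmn
  have h0 : inner ℝ (ub m : ℍ[ℝ]) (ub n : ℍ[ℝ]) = 0 := by rw [ub_inner, if_neg hmn]
  rcases h with h | h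
  · have : ub n = ub m := (inv_mul_eq_one.1 h).symm
    rw [this, inner_self_S3] at h0
    exact one_ne_zero h0
  · have : ub n = ub m * (-1) := by rw [← h, mul_inv_cancel_left]
    have h2 : (ub n : ℍ[ℝ]) = -(ub m : ℍ[ℝ]) := by rw [this]; simp
    rw [h2, inner_neg_right, inner_self_S3] at h0
    norm_num at h0

/-- sixteen points of `X3 ⧸ C1` -/
def pts (mn : Fin 4 × Fin 4) : X3 ⧸ C1 := QuotientGroup.mk (ub mn.1, ub mn.2, 1)

theorem pts_injective : Function.Injective pts := by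
  intro a b h
  unfold pts at h
  rw [QuotientGroup.eq] at h
  obtain ⟨h1, h2, _⟩ := h
  exact Prod.ext (ub_rel h1) (ub_rel h2)

theorem pts_antipodal (a b : Fin 4 × Fin 4) : pts a * (pts b)⁻¹ * pts a = pts b := by
  change (QuotientGroup.mk _ : X3 ⧸ C1) = QuotientGroup.mk _
  rw [QuotientGroup.eq]
  refine ⟨ub_refl _ _, ub_refl _ _, ?_⟩
  change ((1 : S3) * 1⁻¹ * 1)⁻¹ * 1 = 1
  group

theorem sixteen_le : (16 : Cardinal) ≤ (symQuot C1).twoNumber := by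
  have hA : (symQuot C1).IsAntipodal (Set.range pts) := by
    rintro _ ⟨a, rfl⟩ _ ⟨b, rfl⟩
    rw [symQuot_apply]
    exact pts_antipodal a b
  have hc : Cardinal.mk (Set.range pts) = 16 := by
    rw [Cardinal.mk_range_eq _ pts_injective]
    simp
  rw [← hc]
  exact le_ciSup (f := fun A : {A : Set (X3 ⧸ C1) // (symQuot C1).IsAntipodal A} =>
    Cardinal.mk A.1) Cardinal.bddAbove_of_small ⟨_, hA⟩

/-! ### antipodal sets for `C2` are small -/

theorem comb_lemma {Par Ort : Fin 3 → Fin 5 → Fin 5 → Prop}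
    (psymm : ∀ k i j, Par k i j → Par k j i)
    (ptrans : ∀ k i j l, Par k i j → Par k j l → Par k i l)
    (excl : ∀ k i j, Par k i j → Ort k i j → False)
    (pair : ∀ i j, i ≠ j → ∃ k, Par k i j ∧ ∀ k', k' ≠ k → Ort k' i j) :
    ∃ m, ∀ i j, i ≠ j → Ort m i j := by
  choose! t ht using pair
  obtain ⟨a, b, hab, htab⟩ := Fintype.exists_ne_map_eq_of_card_lt
    (fun j : Fin 4 => t 0 j.succ) (by simp)
  have ha0 : (0 : Fin 5) ≠ a.succ := (Fin.succ_ne_zero a).symm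
  have hb0 : (0 : Fin 5) ≠ b.succ := (Fin.succ_ne_zero b).symm
  have habs : a.succ ≠ b.succ := fun h => hab (Fin.succ_injective _ h)
  have htab' : t 0 a.succ = t 0 b.succ := htab
  set k := t 0 a.succ with hk
  have hPa : Par k 0 a.succ := (ht 0 a.succ ha0).1
  have hPb : Par k 0 b.succ := by
    have := (ht 0 b.succ hb0).1
    rwa [← htab'] at this
  have hPab : Par k a.succ b.succ := ptrans _ _ _ _ (psymm _ _ _ hPa) hPb
  have tab : t a.succ b.succ = k := by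
    by_contra hne
    exact excl _ _ _ hPab ((ht _ _ habs).2 k (fun h => hne h.symm))
  -- all the types at 0 are `k`
  have all0 : ∀ j, (0 : Fin 5) ≠ j → Par k 0 j := by
    intro j hj
    by_contra hcon
    have htj : t 0 j ≠ k := fun h => hcon (by rw [← h]; exact (ht 0 j hj).1)
    have hja : j ≠ a.succ := fun h => hcon (by rw [h]; exact hPa)
    have hjb : j ≠ b.succ := fun h => hcon (by rw [h]; exact hPb)
    have hO : Ort k 0 j := (ht 0 j hj).2 k (fun h => htj h.symm)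
    have hP : Par (t 0 j) 0 j := (ht 0 j hj).1
    -- the third index
    have third : ∀ c : Fin 5, (0 : Fin 5) ≠ c → Par k 0 c → t 0 c = k → j ≠ c →
        t j c ≠ k ∧ t j c ≠ t 0 j := by
      intro c hc hPc htc hjc
      constructor
      · intro h
        have h1 : Par k j c := by rw [← h]; exact (ht j c hjc).1
        exact excl _ _ _ (ptrans _ _ _ _ hPc (psymm _ _ _ h1)) hO
      · intro h
        have h1 : Par (t 0 j) j c := by rw [← h]; exact (ht j c hjc).1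
        have h2 : Ort (t 0 j) 0 c := (ht 0 c hc).2 _ (by rw [htc]; exact htj)
        exact excl _ _ _ (ptrans _ _ _ _ hP h1) h2
    have ta := third a.succ ha0 hPa rfl hja
    have tb := third b.succ hb0 hPb htab'.symm hjb
    have tt : t j a.succ = t j b.succ := by
      have : ∀ (k u x y : Fin 3), u ≠ k → x ≠ k → x ≠ u → y ≠ k → y ≠ u → x = y := by
        intro k u x y h1 h2 h3 h4 h5
        simp only [ne_eq, Fin.ext_iff] at *
        omega
      exact this k (t 0 j) _ _ htj ta.1 ta.2 tb.1 tb.2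
    have h1 : Par (t j a.succ) j a.succ := (ht _ _ hja).1
    have h2 : Par (t j a.succ) j b.succ := by rw [tt]; exact (ht _ _ hjb).1
    have h3 : Par (t j a.succ) a.succ b.succ := ptrans _ _ _ _ (psymm _ _ _ h1) h2
    have h4 : Ort (t j a.succ) a.succ b.succ := (ht _ _ habs).2 _ (by rw [tab]; exact ta.1)
    exact excl _ _ _ h3 h4
  have hm : ∃ m : Fin 3, m ≠ k := by
    have : ∀ k : Fin 3, ∃ m : Fin 3, m ≠ k := by decide
    exact this k
  obtain ⟨m, hm⟩ := hm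
  refine ⟨m, fun i j hij => ?_⟩
  have hPij : Par k i j := by
    by_cases hi : (0 : Fin 5) = i
    · subst hi; exact all0 j hij
    · by_cases hj : (0 : Fin 5) = j
      · subst hj; exact psymm _ _ _ (all0 i hi)
      · exact ptrans _ _ _ _ (psymm _ _ _ (all0 i hi)) (all0 j hj)
  have tij : t i j = k := by
    by_contra hne
    exact excl _ _ _ hPij ((ht _ _ hij).2 k (fun h => hne h.symm))
  exact (ht i j hij).2 m (by rw [tij]; exact hm)

theorem comp_cases (x y : S3) :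
    ((x * y⁻¹ * x)⁻¹ * y = 1 → (y = x ∨ y = -x)) ∧
    ((x * y⁻¹ * x)⁻¹ * y = -1 → inner ℝ (x : ℍ[ℝ]) (y : ℍ[ℝ]) = 0) := by
  constructor
  · intro h
    exact refl_eq_self_iff x y (inv_mul_eq_one.1 h)
  · intro h
    rw [← refl_eq_neg_iff]
    have h1 : y = (x * y⁻¹ * x) * (-1) := by rw [← h, mul_inv_cancel_left]
    have h2 : ∀ w : S3, -(w * (-1)) = w := fun w => by apply Subtype.ext; simp
    calc x * y⁻¹ * x = -((x * y⁻¹ * x) * (-1)) := (h2 _).symm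
      _ = -y := by rw [← h1]

/-- the components of a point of `X3` -/
def cmp (k : Fin 3) (x : X3) : S3 := ![x.1, x.2.1, x.2.2] k

/-- the relation of being equal up to sign -/
def par (a b : S3) : Prop := b = a ∨ b = -a

theorem neg_neg' (a : S3) : - -a = a := by apply Subtype.ext; simp

theorem par_symm {a b : S3} (h : par a b) : par b a := by
  rcases h with h | h
  · left; exact h.symm
  · right; rw [h, neg_neg']

theorem par_trans {a b c : S3} (h : par a b) (h' : par b c) : par a c := by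
  rcases h with rfl | rfl <;> rcases h' with rfl | rfl
  · left; rfl
  · right; rfl
  · right; rfl
  · left; rw [neg_neg']

theorem par_excl {a b : S3} (h : par a b) (h0 : inner ℝ (a : ℍ[ℝ]) (b : ℍ[ℝ]) = 0) : False := by
  rcases h with rfl | rfl
  · rw [inner_self_S3] at h0; exact one_ne_zero h0
  · have : ((-a : S3) : ℍ[ℝ]) = -(a : ℍ[ℝ]) := rfl
    rw [this, inner_neg_right, inner_self_S3] at h0
    norm_num at h0

theorem par_iff {a b : S3} : par a b ↔ (a⁻¹ * b = 1 ∨ a⁻¹ * b = -1) := by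
  have h : -a = a * (-1) := by apply Subtype.ext; simp
  unfold par
  rw [h]
  constructor
  · rintro (rfl | rfl)
    · left; rw [inv_mul_cancel]
    · right; rw [inv_mul_cancel_left]
  · rintro (h | h)
    · left; rw [← mul_inv_cancel_left a b, h, mul_one]
    · right; rw [← h, mul_inv_cancel_left]

theorem pair_prop {x y : X3} (h : (x * y⁻¹ * x)⁻¹ * y ∈ C2)
    (hn : ¬ (par x.1 y.1 ∧ par x.2.1 y.2.1 ∧ par x.2.2 y.2.2)) :
    ∃ k, par (cmp k x) (cmp k y) ∧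
      ∀ k', k' ≠ k → inner ℝ (cmp k' x : ℍ[ℝ]) (cmp k' y : ℍ[ℝ]) = 0 := by
  obtain ⟨h1, h2, h3⟩ := h
  change (x.1 * y.1⁻¹ * x.1)⁻¹ * y.1 = 1 ∨ (x.1 * y.1⁻¹ * x.1)⁻¹ * y.1 = -1 at h1
  change (x.2.1 * y.2.1⁻¹ * x.2.1)⁻¹ * y.2.1 = 1 ∨ (x.2.1 * y.2.1⁻¹ * x.2.1)⁻¹ * y.2.1 = -1 at h2
  change (x.2.2 * y.2.2⁻¹ * x.2.2)⁻¹ * y.2.2 =
    ((x.1 * y.1⁻¹ * x.1)⁻¹ * y.1) * ((x.2.1 * y.2.1⁻¹ * x.2.1)⁻¹ * y.2.1) at h3
  rcases h1 with h1 | h1 <;> rcases h2 with h2 | h2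
  · exfalso
    rw [h1, h2, mul_one] at h3
    exact hn ⟨(comp_cases _ _).1 h1, (comp_cases _ _).1 h2, (comp_cases _ _).1 h3⟩
  · rw [h1, h2, one_mul] at h3
    refine ⟨0, (comp_cases _ _).1 h1, ?_⟩
    intro k' hk'
    fin_cases k'
    · exact absurd rfl hk'
    · exact (comp_cases _ _).2 h2
    · exact (comp_cases _ _).2 h3
  · rw [h1, h2, mul_one] at h3
    refine ⟨1, (comp_cases _ _).1 h2, ?_⟩
    intro k' hk'
    fin_cases k'
    · exact (comp_cases _ _).2 h1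
    · exact absurd rfl hk'
    · exact (comp_cases _ _).2 h3
  · rw [h1, h2, neg_one_mul_neg_one'] at h3
    refine ⟨2, (comp_cases _ _).1 h3, ?_⟩
    intro k' hk'
    fin_cases k'
    · exact (comp_cases _ _).2 h1
    · exact (comp_cases _ _).2 h2
    · exact absurd rfl hk'

theorem no_five (y : Fin 5 → X3)
    (h : ∀ i j, i ≠ j → (y i * (y j)⁻¹ * y i)⁻¹ * y j ∈ C2)
    (hn : ∀ i j, i ≠ j →
      ¬ (par (y i).1 (y j).1 ∧ par (y i).2.1 (y j).2.1 ∧ par (y i).2.2 (y j).2.2)) : False := by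
  obtain ⟨m, hm⟩ := comb_lemma (Par := fun k i j => par (cmp k (y i)) (cmp k (y j)))
    (Ort := fun k i j => inner ℝ (cmp k (y i) : ℍ[ℝ]) (cmp k (y j) : ℍ[ℝ]) = 0)
    (fun k i j => par_symm) (fun k i j l => par_trans) (fun k i j => par_excl)
    (fun i j hij => pair_prop (h i j hij) (hn i j hij))
  have ho : Orthonormal ℝ (fun i : Fin 5 => (cmp m (y i) : ℍ[ℝ])) := by
    refine ⟨fun i => norm_eq_of_mem_sphere _, fun i j hij => hm i j hij⟩
  have hl := ho.linearIndependent.fintype_card_le_finrank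
  rw [Quaternion.finrank_eq_four] at hl
  simp at hl

/-- the group of all the sign triples -/
def Call : Subgroup X3 where
  carrier := {c | (c.1 = 1 ∨ c.1 = -1) ∧ (c.2.1 = 1 ∨ c.2.1 = -1) ∧ (c.2.2 = 1 ∨ c.2.2 = -1)}
  one_mem' := ⟨Or.inl rfl, Or.inl rfl, Or.inl rfl⟩
  mul_mem' := by
    rintro a b ⟨a1, a2, a3⟩ ⟨b1, b2, b3⟩
    exact ⟨sgn_mul a1 b1, sgn_mul a2 b2, sgn_mul a3 b3⟩
  inv_mem' := by
    rintro a ⟨a1, a2, a3⟩
    refine ⟨?_, ?_, ?_⟩
    · change a.1⁻¹ = 1 ∨ a.1⁻¹ = -1; rwa [sgn_inv a1]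
    · change a.2.1⁻¹ = 1 ∨ a.2.1⁻¹ = -1; rwa [sgn_inv a2]
    · change a.2.2⁻¹ = 1 ∨ a.2.2⁻¹ = -1; rwa [sgn_inv a3]

theorem Call_iff (x y : X3) : x⁻¹ * y ∈ Call ↔
    (par x.1 y.1 ∧ par x.2.1 y.2.1 ∧ par x.2.2 y.2.2) := by
  rw [par_iff, par_iff, par_iff]
  rfl

/-- a chosen representative -/
def rep (q : X3 ⧸ C2) : X3 := Function.surjInv (proj_surj C2) q

theorem mk_rep (q : X3 ⧸ C2) : (QuotientGroup.mk (rep q) : X3 ⧸ C2) = q :=
  Function.surjInv_eq _ q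

theorem sgn_ne {a b : S3} (ha : a = 1 ∨ a = -1) (hb : b = 1 ∨ b = -1) (h : a ≠ b) :
    a = b * (-1) := by
  rcases ha with rfl | rfl <;> rcases hb with rfl | rfl
  · exact absurd rfl h
  · exact neg_one_mul_neg_one'.symm
  · rw [one_mul]
  · exact absurd rfl h

/-- two elements of `Call` outside `C2` differ by an element of `C2` -/
theorem Call_C2 {a b : X3} (ha : a ∈ Call) (hb : b ∈ Call) (ha' : a ∉ C2) (hb' : b ∉ C2) :
    a⁻¹ * b ∈ C2 := by
  obtain ⟨a1, a2, a3⟩ := ha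
  obtain ⟨b1, b2, b3⟩ := hb
  have ha3 : a.2.2 ≠ a.1 * a.2.1 := fun h => ha' ⟨a1, a2, h⟩
  have hb3 : b.2.2 ≠ b.1 * b.2.1 := fun h => hb' ⟨b1, b2, h⟩
  have ka := sgn_ne a3 (sgn_mul a1 a2) ha3
  have kb := sgn_ne b3 (sgn_mul b1 b2) hb3
  refine ⟨?_, ?_, ?_⟩
  · change a.1⁻¹ * b.1 = 1 ∨ a.1⁻¹ * b.1 = -1
    rw [sgn_inv a1]; exact sgn_mul a1 b1
  · change a.2.1⁻¹ * b.2.1 = 1 ∨ a.2.1⁻¹ * b.2.1 = -1
    rw [sgn_inv a2]; exact sgn_mul a2 b2
  · change a.2.2⁻¹ * b.2.2 = (a.1⁻¹ * b.1) * (a.2.1⁻¹ * b.2.1)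
    rw [ka, kb, mul_inv_rev, mul_inv_rev, neg_one_inv', sgn_inv a1, sgn_inv a2]
    have c1 := sign_comm (c := (-1 : S3)) (Or.inr rfl)
    have c2 := sign_comm a2
    calc -1 * (a.2.1 * a.1) * (b.1 * b.2.1 * -1)
        = (a.2.1 * a.1) * (b.1 * b.2.1) * ((-1) * (-1)) := by
          rw [← c1 (a.2.1 * a.1)]
          simp only [mul_assoc]
          rw [← mul_assoc (-1) b.1, ← c1 b.1, mul_assoc b.1, ← mul_assoc (-1) b.2.1,
            ← c1 b.2.1, mul_assoc]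
      _ = (a.2.1 * a.1) * (b.1 * b.2.1) := by rw [neg_one_mul_neg_one', mul_one]
      _ = a.1 * b.1 * (a.2.1 * b.2.1) := by
          rw [← c2 a.1, mul_assoc, mul_assoc, ← mul_assoc a.2.1 b.1, ← c2 b.1, mul_assoc]

theorem antipodal_le (A : Set (X3 ⧸ C2)) (hA : (symQuot C2).IsAntipodal A) :
    Cardinal.mk A ≤ 8 := by
  have h8 : ((8 : ℕ) : Cardinal) = 8 := by norm_num
  rw [← h8]
  apply Cardinal.card_le_of
  intro s
  classical
  have hrel : ∀ a b : A, (rep a.1 * (rep b.1)⁻¹ * rep a.1)⁻¹ * rep b.1 ∈ C2 := by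
    intro a b
    have h := hA a.1 a.2 b.1 b.2
    rw [symQuot_apply] at h
    rw [← QuotientGroup.eq]
    change (QuotientGroup.mk (rep a.1) : X3 ⧸ C2) * (QuotientGroup.mk (rep b.1))⁻¹ *
      QuotientGroup.mk (rep a.1) = QuotientGroup.mk (rep b.1)
    rw [mk_rep, mk_rep]
    exact h
  set f : A → X3 ⧸ Call := fun a => QuotientGroup.mk (rep a.1) with hf
  have hfib : ∀ t ∈ s.image f, (s.filter fun x => f x = t).card ≤ 2 := by
    intro t _
    by_contra hcon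
    rw [not_le, Finset.two_lt_card] at hcon
    obtain ⟨a, ha, b, hb, c, hc, hab, hac, hbc⟩ := hcon
    rw [Finset.mem_filter] at ha hb hc
    have e1 : (rep a.1)⁻¹ * rep b.1 ∈ Call := by
      rw [← QuotientGroup.eq]; exact ha.2.trans hb.2.symm
    have e2 : (rep a.1)⁻¹ * rep c.1 ∈ Call := by
      rw [← QuotientGroup.eq]; exact ha.2.trans hc.2.symm
    have ne : ∀ u v : A, u ≠ v → (rep u.1)⁻¹ * rep v.1 ∉ C2 := by
      intro u v huv h
      rw [← QuotientGroup.eq, mk_rep, mk_rep] at h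
      exact huv (Subtype.ext h)
    have h := Call_C2 e1 e2 (ne _ _ hab) (ne _ _ hac)
    have h2 : ((rep a.1)⁻¹ * rep b.1)⁻¹ * ((rep a.1)⁻¹ * rep c.1) = (rep b.1)⁻¹ * rep c.1 := by
      group
    rw [h2] at h
    exact ne _ _ hbc h
  have h1 := Finset.card_le_mul_card_image s 2 hfib
  have h2 : (s.image f).card ≤ 4 := by
    by_contra hcon
    rw [not_le] at hcon
    obtain ⟨t, ht, htc⟩ := Finset.exists_subset_card_eq (s := s.image f) (n := 5) hcon
    have e := (Finset.equivFinOfCardEq htc).symm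
    have hch : ∀ i : Fin 5, ∃ a : A, f a = (e i).1 := by
      intro i
      have := ht (e i).2
      rw [Finset.mem_image] at this
      obtain ⟨a, _, ha⟩ := this
      exact ⟨a, ha⟩
    choose a ha using hch
    refine no_five (fun i => rep (a i).1) (fun i j _ => hrel _ _) (fun i j hij hpar => ?_)
    rw [← Call_iff, ← QuotientGroup.eq] at hpar
    have h3 : f (a i) = f (a j) := hpar
    rw [ha, ha] at h3
    exact hij (e.injective (Subtype.ext h3))
  omega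

theorem twoNumber_le : (symQuot C2).twoNumber ≤ 8 :=
  ciSup_le' fun A => antipodal_le A.1 A.2

end Run7.h611
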